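import Pool.Agent.H16R3.Curv.Defs

set_option autoImplicit false

open Set Matrix Finset

namespace Pool.Agent.H16R3.Curv

variable {n : ℕ}

lemma wedge_apply (p q k m : Fin n) :
    wedge p q k m = (if p = k ∧ q = m then 1 else 0) - (if q = k ∧ p = m then 1 else 0) := by
  simp [wedge, Matrix.single_apply]

lemma sum_wedge (G : Fin n → Fin n → ℝ) (k m : Fin n) :
    ∑ p, ∑ q, G p q * wedge p q k m = G k m - G m k := by
  simp only [wedge_apply, mul_sub, Finset.sum_sub_distrib, mul_ite, mul_one, mul_zero, ite_and]
  simp [Finset.sum_ite_eq']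

lemma sharp_eq (R : Tensor4 n) (h1 : ∀ i j k l, R i j k l = -R j i k l) (i j k l : Fin n) :
    sharp R i j k l =
      ∑ m, (image R k m * image R m l - image R m l * image R k m) i j := by
  have himg : ∀ p q, image R p q = - image R q p := by
    intro p q; ext a b; simp [image]; exact h1 p q a b
  set X : Fin n → Fin n → Fin n → Fin n → ℝ := fun p q r s =>
    (image R p q * image R r s - image R r s * image R p q) i j with hX
  have hX1 : ∀ p q r s, X p q r s = - X q p r s := by
    intro p q r s; simp only [hX]; rw [himg p q]; simp; ring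
  have hX2 : ∀ p q r s, X p q r s = - X p q s r := by
    intro p q r s; simp only [hX]; rw [himg r s]; simp; ring
  have hX3 : ∀ p q r s, X p q r s = - X r s p q := by
    intro p q r s; simp only [hX, Matrix.sub_apply]; ring
  have e1 : ∀ m, ∑ p, ∑ q, ∑ r, ∑ s, X p q r s * (wedge p q k m * wedge r s m l)
      = 4 * X k m m l := by
    intro m
    have : ∀ p q, ∑ r, ∑ s, X p q r s * (wedge p q k m * wedge r s m l)
        = (2 * X p q m l) * wedge p q k m := by
      intro p q
      have h := sum_wedge (fun r s => X p q r s * wedge p q k m) m l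
      calc ∑ r, ∑ s, X p q r s * (wedge p q k m * wedge r s m l)
          = ∑ r, ∑ s, X p q r s * wedge p q k m * wedge r s m l :=
            Finset.sum_congr rfl (fun r _ => Finset.sum_congr rfl (fun s _ => by ring))
        _ = X p q m l * wedge p q k m - X p q l m * wedge p q k m := h
        _ = _ := by rw [hX2 p q l m]; ring
    rw [Finset.sum_congr rfl (fun p _ => Finset.sum_congr rfl (fun q _ => this p q))]
    rw [sum_wedge (fun p q => 2 * X p q m l) k m]
    rw [hX1 m k m l]; ring
  have e2 : ∀ m, ∑ p, ∑ q, ∑ r, ∑ s, X p q r s * (wedge r s k m * wedge p q m l)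
      = 4 * X m l k m := by
    intro m
    have : ∀ p q, ∑ r, ∑ s, X p q r s * (wedge r s k m * wedge p q m l)
        = (2 * X p q k m) * wedge p q m l := by
      intro p q
      have h := sum_wedge (fun r s => X p q r s * wedge p q m l) k m
      calc ∑ r, ∑ s, X p q r s * (wedge r s k m * wedge p q m l)
          = ∑ r, ∑ s, X p q r s * wedge p q m l * wedge r s k m :=
            Finset.sum_congr rfl (fun r _ => Finset.sum_congr rfl (fun s _ => by ring))
        _ = X p q k m * wedge p q m l - X p q m k * wedge p q m l := h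
        _ = _ := by rw [hX2 p q m k]; ring
    rw [Finset.sum_congr rfl (fun p _ => Finset.sum_congr rfl (fun q _ => this p q))]
    rw [sum_wedge (fun p q => 2 * X p q k m) m l]
    rw [hX1 l m k m]; ring
  have e3 : ∀ p q r s, X p q r s * (wedge p q * wedge r s - wedge r s * wedge p q) k l
      = ∑ m, (X p q r s * (wedge p q k m * wedge r s m l) -
          X p q r s * (wedge r s k m * wedge p q m l)) := by
    intro p q r s
    rw [Matrix.sub_apply, Matrix.mul_apply, Matrix.mul_apply, ← Finset.sum_sub_distrib,
      Finset.mul_sum]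
    refine Finset.sum_congr rfl fun m _ => by ring
  have e4 : ∑ p, ∑ q, ∑ r, ∑ s, X p q r s * (wedge p q * wedge r s - wedge r s * wedge p q) k l
      = ∑ m, (4 * X k m m l - 4 * X m l k m) := by
    simp_rw [e3]
    rw [show (∑ p, ∑ q, ∑ r, ∑ s, ∑ m, (X p q r s * (wedge p q k m * wedge r s m l) -
          X p q r s * (wedge r s k m * wedge p q m l))) =
        ∑ m, ∑ p, ∑ q, ∑ r, ∑ s, (X p q r s * (wedge p q k m * wedge r s m l) -
          X p q r s * (wedge r s k m * wedge p q m l)) from ?_]
    · refine Finset.sum_congr rfl fun m _ => ?_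
      rw [← e1 m, ← e2 m]
      simp_rw [Finset.sum_sub_distrib]
    · have c1 : ∀ p q r, ∑ s, ∑ m, (X p q r s * (wedge p q k m * wedge r s m l) -
          X p q r s * (wedge r s k m * wedge p q m l)) = ∑ m, ∑ s, (X p q r s * (wedge p q k m * wedge r s m l) -
          X p q r s * (wedge r s k m * wedge p q m l)) := fun p q r => Finset.sum_comm
      simp_rw [c1]
      have c2 : ∀ p q, ∑ r, ∑ m, ∑ s, (X p q r s * (wedge p q k m * wedge r s m l) -
          X p q r s * (wedge r s k m * wedge p q m l)) = ∑ m, ∑ r, ∑ s, (X p q r s * (wedge p q k m * wedge r s m l) -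
          X p q r s * (wedge r s k m * wedge p q m l)) := fun p q => Finset.sum_comm
      simp_rw [c2]
      have c3 : ∀ p, ∑ q, ∑ m, ∑ r, ∑ s, (X p q r s * (wedge p q k m * wedge r s m l) -
          X p q r s * (wedge r s k m * wedge p q m l)) = ∑ m, ∑ q, ∑ r, ∑ s, (X p q r s * (wedge p q k m * wedge r s m l) -
          X p q r s * (wedge r s k m * wedge p q m l)) := fun p => Finset.sum_comm
      simp_rw [c3]
      exact Finset.sum_comm
  have e5 : sharp R i j k l = (1 / 8) * ∑ m, (4 * X k m m l - 4 * X m l k m) := by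
    rw [← e4]; rfl
  rw [e5, Finset.mul_sum]
  refine Finset.sum_congr rfl fun m _ => ?_
  rw [hX3 m l k m]
  show 1 / 8 * (4 * X k m m l - 4 * -X k m m l) = X k m m l
  ring

end Pool.Agent.H16R3.Curv
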