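import Pool.Agent.H16R3.Curv.Main

set_option autoImplicit false

open Set Matrix Finset Filter Topology

namespace Pool.Agent.H16R3.Curv

variable {n : ℕ}

/-- Hamilton's quadratic expression -/
def HB (R : Tensor4 n) (i j k l : Fin n) : ℝ := ∑ p, ∑ q, R i p j q * R k p l q

lemma HB_swap (R : Tensor4 n) (i j k l : Fin n) : HB R i j k l = HB R k l i j := by
  unfold HB
  exact Finset.sum_congr rfl fun p _ => Finset.sum_congr rfl fun q _ => mul_comm _ _

lemma HB_flip {R : Tensor4 n} (hR : R ∈ CurvOp n) (i j k l : Fin n) :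
    HB R i j k l = HB R j i l k := by
  unfold HB
  rw [Finset.sum_comm]
  refine Finset.sum_congr rfl fun p _ => Finset.sum_congr rfl fun q _ => ?_
  rw [hR.2.2.1 i q j p, hR.2.2.1 k q l p]

lemma curv_split {R : Tensor4 n} (hR : R ∈ CurvOp n) (i j p q : Fin n) :
    R i j p q = R i p j q - R i q j p := by
  have h := hR.2.2.2 i j p q
  rw [hR.1 p i j q, hR.2.2.1 j p i q] at h
  linarith

lemma sq_HB {R : Tensor4 n} (hR : R ∈ CurvOp n) (i j k l : Fin n) :
    sq R i j k l = HB R i j k l - HB R i j l k := by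
  have e : ∀ p q, R i j p q * R p q k l = (R i p j q * R k p l q - R i p j q * R l p k q) +
      (R i q j p * R k q l p - R i q j p * R l q k p) := by
    intro p q
    rw [hR.2.2.1 p q k l, curv_split hR i j p q, curv_split hR k l p q, hR.2.2.1 l p k q,
      hR.2.2.1 l q k p]
    ring
  have e2 : ∑ p, ∑ q, (R i q j p * R k q l p - R i q j p * R l q k p) =
      ∑ p, ∑ q, (R i p j q * R k p l q - R i p j q * R l p k q) := Finset.sum_comm
  unfold sq HB
  simp_rw [e, Finset.sum_add_distrib]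
  rw [e2]
  simp_rw [Finset.sum_sub_distrib]
  ring

lemma sharp_HB {R : Tensor4 n} (hR : R ∈ CurvOp n) (i j k l : Fin n) :
    sharp R i j k l = HB R i k j l - HB R i l j k := by
  rw [sharp_index R hR]
  unfold HB
  simp_rw [Finset.sum_sub_distrib]

lemma Q_HB {R : Tensor4 n} (hR : R ∈ CurvOp n) (i j k l : Fin n) :
    Q R i j k l = HB R i j k l - HB R i j l k + HB R i k j l - HB R i l j k := by
  show sq R i j k l + sharp R i j k l = _
  rw [sq_HB hR, sharp_HB hR]; ring

lemma Q_mem {R : Tensor4 n} (hR : R ∈ CurvOp n) : Q R ∈ CurvOp n := by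
  refine ⟨?_, ?_, ?_, ?_⟩ <;> intro i j k l <;> simp only [Q_HB hR]
  · rw [HB_flip hR j i k l, HB_flip hR j i l k, HB_swap R j k i l, HB_swap R j l i k]; ring
  · ring
  · rw [HB_swap R k l i j, HB_swap R k l j i, HB_flip hR j i k l, HB_flip hR k i l j,
      HB_swap R k j l i, HB_flip hR l i k j]
  · rw [HB_flip hR j i k l, HB_flip hR k i l j, HB_swap R k l i j, HB_swap R i l j k,
      HB_flip hR j k l i, HB_swap R j l k i]
    ring

/-- Ricci tensor -/
def ric (R : Tensor4 n) (p q : Fin n) : ℝ := ∑ i, R i p i q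

lemma scal_Q {R : Tensor4 n} (hR : R ∈ CurvOp n) : scal (Q R) = ∑ p, ∑ q, ric R p q ^ 2 := by
  have e1 : scal (Q R) = ∑ i, ∑ j, HB R i j i j - 2 * ∑ i, ∑ j, HB R i j j i +
      ∑ i, ∑ j, HB R i i j j := by
    unfold scal
    simp_rw [Q_HB hR, Finset.sum_sub_distrib, Finset.sum_add_distrib, Finset.sum_sub_distrib]
    ring
  have hX : ∑ i, ∑ j, HB R i j j i = ∑ i, ∑ j, ∑ p, ∑ q, R i p j q * R i q j p := by
    unfold HB
    refine Finset.sum_congr rfl fun i _ => Finset.sum_congr rfl fun j _ =>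
      Finset.sum_congr rfl fun p _ => Finset.sum_congr rfl fun q _ => ?_
    rw [hR.2.2.1 j p i q]
  have hN : ∑ i, ∑ j, ∑ p, ∑ q, R i j p q ^ 2 =
      2 * (∑ i, ∑ j, HB R i j i j) - 2 * ∑ i, ∑ j, HB R i j j i := by
    have : ∀ i j p q, R i j p q ^ 2 = R i p j q * R i p j q + R i q j p * R i q j p -
        2 * (R i p j q * R i q j p) := by
      intro i j p q; rw [curv_split hR i j p q]; ring
    simp_rw [this, Finset.sum_sub_distrib, Finset.sum_add_distrib, ← Finset.mul_sum]
    rw [← hX]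
    have e2 : ∑ i, ∑ j, ∑ p, ∑ q, R i q j p * R i q j p = ∑ i, ∑ j, ∑ p, ∑ q, R i p j q * R i p j q :=
      Finset.sum_congr rfl fun i _ => Finset.sum_congr rfl fun j _ => Finset.sum_comm
    rw [e2]
    unfold HB
    ring
  have hN2 : ∑ i, ∑ j, ∑ p, ∑ q, R i j p q ^ 2 = ∑ i, ∑ j, HB R i j i j := by
    unfold HB
    refine Finset.sum_congr rfl fun i _ => ?_
    rw [Finset.sum_comm]
    have : ∀ p, ∑ j, ∑ q, R i j p q ^ 2 = ∑ j, ∑ q, R i j p q * R i j p q := fun p =>
      Finset.sum_congr rfl fun j _ => Finset.sum_congr rfl fun q _ => by ring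
    simp_rw [this]
  have h3 : ∑ i, ∑ j, HB R i i j j = ∑ p, ∑ q, ric R p q ^ 2 := by
    unfold HB ric
    have : ∀ p q, (∑ i, R i p i q) ^ 2 = ∑ i, ∑ j, R i p i q * R j p j q := by
      intro p q; rw [pow_two, Finset.sum_mul_sum]
    simp_rw [this]
    have c1 : ∀ i, ∑ j, ∑ p, ∑ q, R i p i q * R j p j q = ∑ p, ∑ q, ∑ j, R i p i q * R j p j q := by
      intro i
      rw [Finset.sum_comm]
      exact Finset.sum_congr rfl fun p _ => Finset.sum_comm
    simp_rw [c1]
    rw [Finset.sum_comm]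
    exact Finset.sum_congr rfl fun p _ => Finset.sum_comm
  rw [e1, h3]
  linarith

end Pool.Agent.H16R3.Curv
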