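import Pool.Agent.H16R3.Curv.Diag

set_option autoImplicit false

open Set Matrix Finset

namespace Pool.Agent.H16R3.Curv

variable {n : ℕ}

/-- the operator `ω ↦ ⟪α, ω⟫ α` -/
def tsq (α : Matrix (Fin n) (Fin n) ℝ) : Tensor4 n := fun i j k l => α i j * α k l

lemma sum_wedge' (G : Fin n → Fin n → ℝ) (a b : Fin n) :
    ∑ p, ∑ q, wedge a b p q * G p q = G a b - G b a := by
  simp only [wedge_apply, sub_mul, Finset.sum_sub_distrib, ite_mul, one_mul, zero_mul, ite_and]
  simp

lemma Q_sum_tsq {m : ℕ} (α : Fin m → Matrix (Fin n) (Fin n) ℝ) (lam : Fin m → ℝ)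
    (hα : ∀ a, (α a)ᵀ = -α a) (i j k l : Fin n) :
    Q (∑ a, lam a • tsq (α a)) i j k l =
      ∑ a, ∑ b, lam a * lam b * ((1 / 2) * (∑ p, ∑ q, α a p q * α b p q) * (α a i j * α b k l) +
        (α a * α b) k l * (α a * α b - α b * α a) i j) := by
  have hα' : ∀ a i j, α a i j = -α a j i := by
    intro a i j
    have := congrFun (congrFun (hα a) j) i
    simpa using this
  have hent : ∀ i j k l, (∑ a, lam a • tsq (α a)) i j k l = ∑ a, lam a * (α a i j * α a k l) := by
    intro i j k l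
    simp [Finset.sum_apply, tsq]
  have hsq : sq (∑ a, lam a • tsq (α a)) i j k l = ∑ a, ∑ b, lam a * lam b *
      ((1 / 2) * (∑ p, ∑ q, α a p q * α b p q) * (α a i j * α b k l)) := by
    unfold sq
    simp_rw [hent]
    have : ∀ p q, (∑ a, lam a * (α a i j * α a p q)) * (∑ b, lam b * (α b p q * α b k l)) =
        ∑ a, ∑ b, lam a * lam b * (α a p q * α b p q) * (α a i j * α b k l) := by
      intro p q
      rw [Finset.sum_mul_sum]
      refine Finset.sum_congr rfl fun a _ => Finset.sum_congr rfl fun b _ => by ring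
    simp_rw [this]
    have c1 : ∀ p, ∑ q, ∑ a, ∑ b, lam a * lam b * (α a p q * α b p q) * (α a i j * α b k l) =
        ∑ a, ∑ b, ∑ q, lam a * lam b * (α a p q * α b p q) * (α a i j * α b k l) := by
      intro p
      rw [Finset.sum_comm]
      refine Finset.sum_congr rfl fun a _ => Finset.sum_comm
    simp_rw [c1]
    rw [Finset.sum_comm]
    rw [Finset.mul_sum]
    refine Finset.sum_congr rfl fun a _ => ?_
    rw [Finset.sum_comm, Finset.mul_sum]
    refine Finset.sum_congr rfl fun b _ => ?_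
    simp_rw [Finset.mul_sum, Finset.sum_mul, Finset.mul_sum]
    refine Finset.sum_congr rfl fun p _ => Finset.sum_congr rfl fun q _ => by ring
  have hsh : sharp (∑ a, lam a • tsq (α a)) i j k l = ∑ a, ∑ b, lam a * lam b *
      ((α a * α b) k l * (α a * α b - α b * α a) i j) := by
    rw [sharp_eq]
    · have himg : ∀ p q, image (∑ a, lam a • tsq (α a)) p q = ∑ a, (lam a * α a p q) • α a := by
        intro p q
        ext x y
        simp only [image, Matrix.of_apply, hent, Matrix.sum_apply, Matrix.smul_apply, smul_eq_mul]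
        refine Finset.sum_congr rfl fun a _ => by ring
      have hprod : ∀ k m r s, (image (∑ a, lam a • tsq (α a)) k m * image (∑ a, lam a • tsq (α a)) r s) i j
          = ∑ a, ∑ b, lam a * lam b * (α a k m * α b r s) * (α a * α b) i j := by
        intro k m r s
        rw [himg, himg, Finset.sum_mul_sum, Matrix.sum_apply]
        refine Finset.sum_congr rfl fun a _ => ?_
        rw [Matrix.sum_apply]
        refine Finset.sum_congr rfl fun b _ => ?_
        rw [Matrix.smul_mul, Matrix.mul_smul, Matrix.smul_apply, Matrix.smul_apply]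
        simp only [smul_eq_mul]; ring
      have hprod2 : ∀ m, (image (∑ a, lam a • tsq (α a)) m l * image (∑ a, lam a • tsq (α a)) k m) i j
          = ∑ a, ∑ b, lam a * lam b * (α a k m * α b m l) * (α b * α a) i j := by
        intro m
        rw [hprod, Finset.sum_comm]
        refine Finset.sum_congr rfl fun a _ => Finset.sum_congr rfl fun b _ => by ring
      have : ∀ m, (image (∑ a, lam a • tsq (α a)) k m * image (∑ a, lam a • tsq (α a)) m l -
          image (∑ a, lam a • tsq (α a)) m l * image (∑ a, lam a • tsq (α a)) k m) i j =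
          ∑ a, ∑ b, lam a * lam b * (α a k m * α b m l) * (α a * α b - α b * α a) i j := by
        intro m
        rw [Matrix.sub_apply, hprod, hprod2, ← Finset.sum_sub_distrib]
        refine Finset.sum_congr rfl fun a _ => ?_
        rw [← Finset.sum_sub_distrib]
        refine Finset.sum_congr rfl fun b _ => ?_
        rw [Matrix.sub_apply]; ring
      simp_rw [this]
      rw [Finset.sum_comm]
      refine Finset.sum_congr rfl fun a _ => ?_
      rw [Finset.sum_comm]
      refine Finset.sum_congr rfl fun b _ => ?_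
      rw [Matrix.mul_apply (M := α a) (N := α b) (i := k), Finset.sum_mul, Finset.mul_sum]
      refine Finset.sum_congr rfl fun p _ => by ring
    · intro i j k l
      rw [hent, hent, ← Finset.sum_neg_distrib]
      refine Finset.sum_congr rfl fun a _ => ?_
      rw [hα' a i j]; ring
  show sq _ i j k l + sharp _ i j k l = _
  rw [hsq, hsh, ← Finset.sum_add_distrib]
  refine Finset.sum_congr rfl fun a _ => ?_
  rw [← Finset.sum_add_distrib]
  refine Finset.sum_congr rfl fun b _ => by ring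

/-- self-dual and anti-self-dual bivectors of the 4-plane spanned by `e (s 0), …, e (s 3)` -/
def bas (s : Fin 4 → Fin n) : Fin 6 → Matrix (Fin n) (Fin n) ℝ :=
  ![wedge (s 0) (s 1) + wedge (s 2) (s 3), wedge (s 0) (s 2) + wedge (s 3) (s 1),
    wedge (s 0) (s 3) + wedge (s 1) (s 2), wedge (s 0) (s 1) - wedge (s 2) (s 3),
    wedge (s 0) (s 2) - wedge (s 3) (s 1), wedge (s 0) (s 3) - wedge (s 1) (s 2)]

lemma wedge_transpose (p q : Fin n) : (wedge p q)ᵀ = -wedge p q := by
  simp [wedge]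

lemma bas_skew (s : Fin 4 → Fin n) (a : Fin 6) : (bas s a)ᵀ = -bas s a := by
  fin_cases a <;> simp [bas, wedge_transpose] <;> abel

lemma bas_inner (s : Fin 4 → Fin n) (hs : Function.Injective s) (a b : Fin 6) :
    ∑ p, ∑ q, bas s a p q * bas s b p q = if a = b then 4 else 0 := by
  have ne : ∀ i j : Fin 4, i ≠ j → s i ≠ s j := fun i j h => hs.ne h
  have h01 := ne 0 1 (by decide)
  have h02 := ne 0 2 (by decide)
  have h03 := ne 0 3 (by decide)
  have h12 := ne 1 2 (by decide)
  have h13 := ne 1 3 (by decide)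
  have h23 := ne 2 3 (by decide)
  have key : ∀ (x y : Fin 4) (G : Matrix (Fin n) (Fin n) ℝ),
      ∑ p, ∑ q, wedge (s x) (s y) p q * G p q = G (s x) (s y) - G (s y) (s x) :=
    fun x y G => sum_wedge' (fun p q => G p q) (s x) (s y)
  fin_cases a <;>
  · simp only [bas, Matrix.add_apply, Matrix.sub_apply, add_mul, sub_mul, Finset.sum_add_distrib,
      Finset.sum_sub_distrib, Fin.zero_eta, Fin.mk_one, Fin.reduceFinMk, Matrix.cons_val,
      Matrix.cons_val_zero, Matrix.cons_val_one, key]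
    fin_cases b <;>
    · simp [wedge_apply, h01, h02, h03, h12, h13, h23, h01.symm, h02.symm, h03.symm, h12.symm,
        h13.symm, h23.symm]
      try norm_num

lemma bas_mul (s : Fin 4 → Fin n) (hs : Function.Injective s) :
    (bas s 0 * bas s 1 = -bas s 2 ∧ bas s 1 * bas s 0 = bas s 2 ∧
     bas s 1 * bas s 2 = -bas s 0 ∧ bas s 2 * bas s 1 = bas s 0 ∧
     bas s 2 * bas s 0 = -bas s 1 ∧ bas s 0 * bas s 2 = bas s 1) ∧
    (bas s 3 * bas s 4 = bas s 5 ∧ bas s 4 * bas s 3 = -bas s 5 ∧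
     bas s 4 * bas s 5 = bas s 3 ∧ bas s 5 * bas s 4 = -bas s 3 ∧
     bas s 5 * bas s 3 = bas s 4 ∧ bas s 3 * bas s 5 = -bas s 4) ∧
    (bas s 0 * bas s 3 = bas s 3 * bas s 0 ∧ bas s 0 * bas s 4 = bas s 4 * bas s 0 ∧
     bas s 0 * bas s 5 = bas s 5 * bas s 0 ∧ bas s 1 * bas s 3 = bas s 3 * bas s 1 ∧
     bas s 1 * bas s 4 = bas s 4 * bas s 1 ∧ bas s 1 * bas s 5 = bas s 5 * bas s 1 ∧
     bas s 2 * bas s 3 = bas s 3 * bas s 2 ∧ bas s 2 * bas s 4 = bas s 4 * bas s 2 ∧
     bas s 2 * bas s 5 = bas s 5 * bas s 2) := by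
  have ne : ∀ i j : Fin 4, i ≠ j → s i ≠ s j := fun i j h => hs.ne h
  have h01 := ne 0 1 (by decide)
  have h02 := ne 0 2 (by decide)
  have h03 := ne 0 3 (by decide)
  have h12 := ne 1 2 (by decide)
  have h13 := ne 1 3 (by decide)
  have h23 := ne 2 3 (by decide)
  refine ⟨⟨?_, ?_, ?_, ?_, ?_, ?_⟩, ⟨?_, ?_, ?_, ?_, ?_, ?_⟩,
    ⟨?_, ?_, ?_, ?_, ?_, ?_, ?_, ?_, ?_⟩⟩ <;>
  · simp only [bas, wedge, Matrix.cons_val, Matrix.cons_val_zero, Matrix.cons_val_one,
      Matrix.add_mul, Matrix.mul_add, Matrix.sub_mul, Matrix.mul_sub,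
      Matrix.single_mul_single_same, ne_eq, h01, h02, h03, h12, h13, h23, h01.symm, h02.symm,
      h03.symm, h12.symm, h13.symm, h23.symm, not_false_eq_true, Matrix.single_mul_single_of_ne,
      mul_one]
    abel

/-- `Q` on operators that are diagonal in the basis of (anti-)self-dual bivectors of a 4-plane. -/
lemma Q_bas (s : Fin 4 → Fin n) (hs : Function.Injective s) (x y z : ℝ) :
    Q (∑ a, (![x / 2, y / 2, y / 2, z / 2, z / 2, z / 2] : Fin 6 → ℝ) a • tsq (bas s a)) =
      ∑ a, (![(x ^ 2 + 2 * y ^ 2) / 2, (y ^ 2 + 2 * x * y) / 2, (y ^ 2 + 2 * x * y) / 2,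
        3 * z ^ 2 / 2, 3 * z ^ 2 / 2, 3 * z ^ 2 / 2] : Fin 6 → ℝ) a • tsq (bas s a) := by
  obtain ⟨⟨a1, a2, a3, a4, a5, a6⟩, ⟨b1, b2, b3, b4, b5, b6⟩, ⟨c1, c2, c3, c4, c5, c6, c7, c8, c9⟩⟩ :=
    bas_mul s hs
  funext i j k l
  rw [Q_sum_tsq _ _ (bas_skew s)]
  simp_rw [bas_inner s hs]
  simp only [Fin.sum_univ_six, Pi.add_apply, Pi.smul_apply, tsq, smul_eq_mul,
    Matrix.cons_val, Matrix.cons_val_zero, Matrix.cons_val_one, Fin.reduceEq, if_true, if_false,
    a1, a2, a3, a4, a5, a6, b1, b2, b3, b4, b5, b6, c1, c2, c3, c4, c5, c6, c7, c8, c9, sub_self,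
    Matrix.sub_apply, Matrix.neg_apply, Matrix.zero_apply]
  ring

end Pool.Agent.H16R3.Curv
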