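import Pool.Agent.H16R3.Curv.Bianchi

set_option autoImplicit false

open Set Matrix Finset Filter Topology

namespace Pool.Agent.H16R3.Curv

variable {n : ℕ}

lemma Q_lip (M : ℝ) : ∃ K : NNReal, LipschitzOnWith K (Q : Tensor4 n → Tensor4 n)
    (Metric.closedBall 0 M) := by
  have hc : Continuous (fderiv ℝ (Q : Tensor4 n → Tensor4 n)) :=
    (contDiff_Q (n := n) (m := 1)).continuous_fderiv (by norm_num)
  obtain ⟨K, hK⟩ := (isCompact_closedBall (0 : Tensor4 n) M).exists_bound_of_continuousOn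
    hc.continuousOn
  refine ⟨⟨max K 0, le_max_right _ _⟩, ?_⟩
  refine Convex.lipschitzOnWith_of_nnnorm_fderiv_le (𝕜 := ℝ)
    (fun x _ => (contDiff_Q (n := n) (m := 1)).differentiable (by norm_num) x) ?_
    (convex_closedBall _ _)
  intro x hx
  rw [← NNReal.coe_le_coe]
  exact (hK x hx).trans (le_max_left _ _)

lemma exists_proj (n : ℕ) : ∃ π : Tensor4 n →L[ℝ] Tensor4 n,
    (∀ R, π R ∈ CurvOp n) ∧ ∀ R ∈ CurvOp n, π R = R := by
  obtain ⟨g, hg⟩ := (CurvOp n).subtype.exists_leftInverse_of_injective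
    (LinearMap.ker_eq_bot.2 Subtype.val_injective)
  refine ⟨LinearMap.toContinuousLinearMap ((CurvOp n).subtype ∘ₗ g), fun R => ?_, fun R hR => ?_⟩
  · simp
  · have := LinearMap.congr_fun hg ⟨R, hR⟩
    simp only [LinearMap.comp_apply, LinearMap.id_apply, Submodule.subtype_apply] at this
    simp [this]

/-- solutions of the ODE that start at an algebraic curvature operator stay in that space -/
lemma stays_curvOp {T : ℝ} {R : ℝ → Tensor4 n} (h0 : R 0 ∈ CurvOp n)
    (hR : ∀ t ∈ Ico 0 T, HasDerivWithinAt R (Q (R t)) (Ico 0 T) t) :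
    ∀ t ∈ Ico 0 T, R t ∈ CurvOp n := by
  intro t1 ht1
  obtain ⟨π, hπ1, hπ2⟩ := exists_proj n
  have hcont : ContinuousOn R (Icc 0 t1) := fun t ht =>
    ((hR t ⟨ht.1, ht.2.trans_lt ht1.2⟩).continuousWithinAt).mono
      (fun x hx => ⟨hx.1, hx.2.trans_lt ht1.2⟩)
  obtain ⟨M, hM⟩ := isCompact_Icc.exists_bound_of_continuousOn hcont
  have hM0 : 0 ≤ M := (norm_nonneg _).trans (hM 0 ⟨le_rfl, ht1.1⟩)
  obtain ⟨K, hK⟩ := Q_lip (n := n) (M + ‖π‖ * M)
  have hd : ∀ t ∈ Ico 0 t1, HasDerivWithinAt (fun t => R t - π (R t)) (Q (R t) - π (Q (R t)))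
      (Ici t) t := by
    intro t ht
    have ht' : t ∈ Ico 0 T := ⟨ht.1, ht.2.trans ht1.2⟩
    have h1 : HasDerivWithinAt R (Q (R t)) (Ici t) t := by
      have := (hR t ht').mono (s := Ico t T) (fun x hx => ⟨ht.1.trans hx.1, hx.2⟩)
      refine this.mono_of_mem_nhdsWithin ?_
      exact Ico_mem_nhdsGE ht'.2
    exact h1.sub (π.hasFDerivAt.comp_hasDerivWithinAt t h1)
  have hc2 : ContinuousOn (fun t => R t - π (R t)) (Icc 0 t1) :=
    hcont.sub (π.continuous.comp_continuousOn hcont)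
  have hz := eq_zero_of_abs_deriv_le_mul_abs_self_of_eq_zero_right (K := (1 + ‖π‖) * K) hc2 hd
    (by simp [hπ2 _ h0]) (by
      intro t ht
      have hin : R t ∈ Metric.closedBall (0 : Tensor4 n) (M + ‖π‖ * M) := by
        rw [mem_closedBall_zero_iff]
        have := hM t ⟨ht.1, ht.2.le⟩
        nlinarith [norm_nonneg π]
      have hin2 : π (R t) ∈ Metric.closedBall (0 : Tensor4 n) (M + ‖π‖ * M) := by
        rw [mem_closedBall_zero_iff]
        have h1 := hM t ⟨ht.1, ht.2.le⟩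
        have h2 := π.le_opNorm (R t)
        nlinarith [norm_nonneg π]
      have e1 : Q (R t) - π (Q (R t)) =
          (Q (R t) - Q (π (R t))) - π (Q (R t) - Q (π (R t))) := by
        rw [map_sub, hπ2 _ (Q_mem (hπ1 (R t)))]; abel
      have h3 : ‖Q (R t) - Q (π (R t))‖ ≤ K * ‖R t - π (R t)‖ := by
        have := hK.dist_le_mul _ hin _ hin2
        rwa [dist_eq_norm, dist_eq_norm] at this
      rw [e1]
      calc ‖(Q (R t) - Q (π (R t))) - π (Q (R t) - Q (π (R t)))‖
          ≤ ‖Q (R t) - Q (π (R t))‖ + ‖π (Q (R t) - Q (π (R t)))‖ := norm_sub_le _ _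
        _ ≤ ‖Q (R t) - Q (π (R t))‖ + ‖π‖ * ‖Q (R t) - Q (π (R t))‖ :=
            add_le_add_right (π.le_opNorm _) _
        _ = (1 + ‖π‖) * ‖Q (R t) - Q (π (R t))‖ := by ring
        _ ≤ (1 + ‖π‖) * (K * ‖R t - π (R t)‖) := by
            refine mul_le_mul_of_nonneg_left h3 ?_
            have := norm_nonneg π
            linarith
        _ = (1 + ‖π‖) * K * ‖R t - π (R t)‖ := by ring)
  have := hz t1 ⟨ht1.1, le_rfl⟩
  have h4 : R t1 = π (R t1) := by
    have h5 : R t1 - π (R t1) = 0 := this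
    exact sub_eq_zero.1 h5
  rw [h4]
  exact hπ1 _

/-- `{scal ≥ 0}` is invariant under the Ricci flow ODE -/
lemma scal_invariant : RicciFlowInvariant {R : Tensor4 n | R ∈ CurvOp n ∧ 0 ≤ scal R} := by
  intro T R h0 hR t1 ht1
  have hmem := stays_curvOp h0.1 hR
  refine ⟨hmem t1 ht1, ?_⟩
  let L : Tensor4 n →L[ℝ] ℝ := LinearMap.toContinuousLinearMap
    { toFun := scal, map_add' := scal_add, map_smul' := scal_smul }
  have hL : ∀ R, L R = scal R := fun R => rfl
  have hmono : MonotoneOn (fun t => scal (R t)) (Icc 0 t1) := by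
    have hd : ∀ t ∈ Icc 0 t1, HasDerivWithinAt (fun t => scal (R t)) (scal (Q (R t)))
        (Icc 0 t1) t := by
      intro t ht
      have h1 := (hR t ⟨ht.1, ht.2.trans_lt ht1.2⟩).mono
        (s := Icc 0 t1) (fun x hx => ⟨hx.1, hx.2.trans_lt ht1.2⟩)
      exact L.hasFDerivAt.comp_hasDerivWithinAt t h1
    refine monotoneOn_of_hasDerivWithinAt_nonneg (convex_Icc _ _)
      (fun t ht => (hd t ht).continuousWithinAt)
      (fun t ht => (hd t (interior_subset ht)).mono interior_subset) ?_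
    intro t ht
    have ht' := interior_subset ht
    rw [scal_Q (hmem t ⟨ht'.1, ht'.2.trans_lt ht1.2⟩)]
    exact Finset.sum_nonneg fun p _ => Finset.sum_nonneg fun q _ => by positivity
  have := hmono ⟨le_rfl, ht1.1⟩ ⟨ht1.1, le_rfl⟩ ht1.1
  exact h0.2.trans this

end Pool.Agent.H16R3.Curv
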