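import Pool.Agent.H16R3.Curv.QIVW

set_option autoImplicit false

open Set Matrix Finset Filter Topology

namespace Pool.Agent.H16R3.Curv

variable {n : ℕ}

lemma contDiff_Q {m : WithTop ℕ∞} : ContDiff ℝ m (Q : Tensor4 n → Tensor4 n) := by
  have hp : ∀ i j k l : Fin n, ContDiff ℝ m (fun R : Tensor4 n => R i j k l) := by
    intro i j k l
    fun_prop
  refine contDiff_pi.2 fun i => contDiff_pi.2 fun j => contDiff_pi.2 fun k => contDiff_pi.2 fun l => ?_
  show ContDiff ℝ m (fun R : Tensor4 n => (1 / 2) * ∑ p, ∑ q, R i j p q * R p q k l +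
    (1 / 8) * ∑ p, ∑ q, ∑ r, ∑ s, (image R p q * image R r s - image R r s * image R p q) i j *
      (wedge p q * wedge r s - wedge r s * wedge p q) k l)
  refine ContDiff.add ?_ ?_
  · refine contDiff_const.mul (ContDiff.sum fun p _ => ContDiff.sum fun q _ => ?_)
    exact (hp _ _ _ _).mul (hp _ _ _ _)
  · refine contDiff_const.mul (ContDiff.sum fun p _ => ContDiff.sum fun q _ =>
      ContDiff.sum fun r _ => ContDiff.sum fun s _ => ?_)
    refine ContDiff.mul ?_ contDiff_const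
    simp only [Matrix.sub_apply, Matrix.mul_apply, image, Matrix.of_apply]
    refine ContDiff.sub ?_ ?_
    · exact ContDiff.sum fun a _ => (hp _ _ _ _).mul (hp _ _ _ _)
    · exact ContDiff.sum fun a _ => (hp _ _ _ _).mul (hp _ _ _ _)

namespace IsCurvatureCone

variable {C : Set (Tensor4 n)} (hC : IsCurvatureCone n C)

include hC

lemma add_mem {R S : Tensor4 n} (hR : R ∈ C) (hS : S ∈ C) : R + S ∈ C := by
  have h := hC.convex hR hS (show (0 : ℝ) ≤ 1 / 2 by norm_num) (show (0 : ℝ) ≤ 1 / 2 by norm_num)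
    (by norm_num)
  have h2 := hC.smul_mem 2 (by norm_num) _ h
  rw [smul_add, smul_smul, smul_smul] at h2
  norm_num at h2
  exact h2

lemma absorb : ∃ ε : ℝ, 0 < ε ∧ ∀ (c : ℝ) (E : Tensor4 n), 0 < c → E ∈ CurvOp n → ‖E‖ < c * ε →
    c • idOp n + E ∈ C := by
  obtain ⟨ε, hε, h⟩ := hC.interior
  refine ⟨ε, hε, fun c E hc hE hlt => ?_⟩
  have h1 : idOp n + c⁻¹ • E ∈ C := by
    refine h _ ((CurvOp n).add_mem idOp_mem ((CurvOp n).smul_mem _ hE)) ?_
    rw [dist_eq_norm, add_sub_cancel_left, norm_smul, norm_inv, Real.norm_of_nonneg hc.le,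
      inv_mul_lt_iff₀ hc]
    exact hlt
  have h2 := hC.smul_mem c hc.le _ h1
  rwa [smul_add, smul_smul, mul_inv_cancel₀ hc.ne', one_smul] at h2

lemma absorb' (E : Tensor4 n) (hE : E ∈ CurvOp n) : ∃ K : ℝ, 0 < K ∧ K • idOp n + E ∈ C := by
  obtain ⟨ε, hε, h⟩ := hC.absorb
  refine ⟨(‖E‖ + 1) / ε, by positivity, h _ _ (by positivity) hE ?_⟩
  rw [div_mul_cancel₀ _ hε.ne']
  linarith

lemma tangent (hRF : RicciFlowInvariant C) {R0 : Tensor4 n} (hR0 : R0 ∈ C) :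
    Q R0 ∈ CurvOp n ∧ ∀ δ : ℝ, 0 < δ → ∃ t : ℝ, 0 < t ∧ R0 + t • (Q R0 + δ • idOp n) ∈ C := by
  obtain ⟨α, hα0, ε, hε, hα⟩ :=
    (contDiff_Q (n := n) (m := 1)).contDiffAt (x := R0)
      |>.exists_forall_mem_closedBall_exists_eq_forall_mem_Ioo_hasDerivAt₀ 0
  have hmem : ∀ t ∈ Ico 0 ε, α t ∈ C := by
    refine hRF ε α (hα0.symm ▸ hR0) fun t ht => (hα t ⟨?_, ?_⟩).hasDerivWithinAt
    · have := ht.1; linarith
    · have := ht.2; linarith
  have hd : HasDerivAt α (Q R0) 0 := by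
    have := hα 0 ⟨by linarith, by linarith⟩
    rwa [hα0] at this
  have hs : Tendsto (fun t : ℝ => t⁻¹ • (α t - R0)) (𝓝[>] 0) (𝓝 (Q R0)) := by
    have := hd.tendsto_slope_zero_right
    simpa [hα0] using this
  have hclosed : IsClosed ((CurvOp n : Submodule ℝ (Tensor4 n)) : Set (Tensor4 n)) :=
    Submodule.closed_of_finiteDimensional _
  have hev : ∀ᶠ t in 𝓝[>] (0 : ℝ), t ∈ Ioo 0 ε := Ioo_mem_nhdsGT hε
  have hQ : Q R0 ∈ CurvOp n := by
    refine hclosed.mem_of_tendsto hs ?_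
    filter_upwards [hev] with t ht
    exact (CurvOp n).smul_mem _ ((CurvOp n).sub_mem (hC.subset _ (hmem t ⟨ht.1.le, ht.2⟩))
      (hC.subset _ hR0))
  refine ⟨hQ, fun δ hδ => ?_⟩
  obtain ⟨ε', hε', habs⟩ := hC.absorb
  have hev2 : ∀ᶠ t in 𝓝[>] (0 : ℝ), dist (t⁻¹ • (α t - R0)) (Q R0) < δ * ε' :=
    hs.eventually (Metric.ball_mem_nhds _ (by positivity))
  obtain ⟨t, ht, htd⟩ := (hev.and hev2).exists
  have ht0 : 0 < t := ht.1
  refine ⟨t, ht0, ?_⟩
  have hαt := hmem t ⟨ht.1.le, ht.2⟩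
  have hD : δ • idOp n + (Q R0 - t⁻¹ • (α t - R0)) ∈ C := by
    refine habs δ _ hδ ((CurvOp n).sub_mem hQ ((CurvOp n).smul_mem _
      ((CurvOp n).sub_mem (hC.subset _ hαt) (hC.subset _ hR0)))) ?_
    rw [← dist_eq_norm, dist_comm]; exact htd
  have h := hC.add_mem hαt (hC.smul_mem t ht0.le _ hD)
  have e : α t + t • (δ • idOp n + (Q R0 - t⁻¹ • (α t - R0))) = R0 + t • (Q R0 + δ • idOp n) := by
    rw [smul_add, smul_sub, smul_smul t t⁻¹, mul_inv_cancel₀ ht0.ne', one_smul, smul_add]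
    abel
  rwa [e] at h

/-- the key step: if the cone contains the line spanned by `Wh h` then it contains `Vh h`. -/
lemma V_mem (hRF : RicciFlowInvariant C) (h : Fin n → ℝ)
    (h1 : ∀ i, h i = 0 ∨ h i = 1 ∨ h i = -1) (h2 : ∑ i, h i = 0) (h3 : ∑ i, h i ^ 2 = 4)
    (hW : Wh h ∈ C) (hW' : -Wh h ∈ C) : Vh h ∈ C := by
  by_contra hV
  set S : Set ℝ := {s | 0 ≤ s ∧ idOp n + s • Vh h ∈ C} with hS
  obtain ⟨ε, hε, habs⟩ := hC.absorb
  have hI : idOp n ∈ C := by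
    have := habs 1 0 one_pos (CurvOp n).zero_mem (by simpa using hε)
    simpa using this
  have hne : (0 : ℝ) ∈ S := ⟨le_rfl, by simpa using hI⟩
  have hclosed : IsClosed S := by
    refine IsClosed.inter isClosed_Ici (hC.isClosed.preimage ?_)
    fun_prop
  have hbdd : BddAbove S := by
    have hopen : IsOpen Cᶜ := hC.isClosed.isOpen_compl
    obtain ⟨η, hη, hball⟩ := Metric.isOpen_iff.1 hopen (Vh h) hV
    refine ⟨(‖idOp n‖ + 1) / η, ?_⟩
    rintro s ⟨hs0, hs⟩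
    by_contra hlt
    push Not at hlt
    have hspos : 0 < s := lt_of_le_of_lt (by positivity) hlt
    have hmem := hC.smul_mem s⁻¹ (by positivity) _ hs
    rw [smul_add, smul_smul, inv_mul_cancel₀ hspos.ne', one_smul] at hmem
    refine hball ?_ hmem
    rw [Metric.mem_ball, dist_eq_norm, add_sub_cancel_right, norm_smul, norm_inv,
      Real.norm_of_nonneg hspos.le, inv_mul_lt_iff₀ hspos]
    rw [div_lt_iff₀ hη] at hlt
    linarith [norm_nonneg (idOp n)]
  set σ := sSup S with hσ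
  have hσS : σ ∈ S := hclosed.csSup_mem ⟨0, hne⟩ hbdd
  have hσle : ∀ s ∈ S, s ≤ σ := fun s hs => le_csSup hbdd hs
  have hσpos : 0 < σ := by
    refine lt_of_lt_of_le ?_ (hσle (ε / (2 * (‖Vh h‖ + 1))) ⟨by positivity, ?_⟩)
    · positivity
    · have := habs 1 ((ε / (2 * (‖Vh h‖ + 1))) • Vh h) one_pos
        ((CurvOp n).smul_mem _ (Vh_mem h)) ?_
      · simpa using this
      · rw [norm_smul, Real.norm_of_nonneg (by positivity), one_mul, div_mul_eq_mul_div,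
          div_lt_iff₀ (by positivity)]
        nlinarith [norm_nonneg (Vh h)]
  obtain ⟨K, hK, hKE⟩ := hC.absorb' (-Q (idOp n + σ • Vh h))
    ((CurvOp n).neg_mem (Q_IV_mem h σ))
  set θ : ℝ := (K + 2) / 4 with hθ
  have hθpos : 0 < θ := by positivity
  have hR0 : idOp n + σ • Vh h + θ • Wh h ∈ C :=
    hC.add_mem hσS.2 (hC.smul_mem θ hθpos.le _ hW)
  obtain ⟨t, ht, hmem⟩ := (hC.tangent hRF hR0).2 1 one_pos
  rw [Q_IVW h h1 h2 h3] at hmem
  have hA := hC.add_mem hmem (hC.smul_mem (θ + t * (3 * θ ^ 2)) (by positivity) _ hW')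
  have hB := hC.add_mem hA (hC.smul_mem t ht.le _ hKE)
  have e : idOp n + σ • Vh h + θ • Wh h +
      t • (Q (idOp n + σ • Vh h) + (4 * θ * σ) • Vh h + (3 * θ ^ 2) • Wh h + (1 : ℝ) • idOp n) +
      (θ + t * (3 * θ ^ 2)) • -Wh h + t • (K • idOp n + -Q (idOp n + σ • Vh h)) =
      (1 + t + t * K) • idOp n + (σ + t * (4 * θ * σ)) • Vh h := by
    module
  rw [e] at hB
  have hpos : 0 < 1 + t + t * K := by positivity
  have hC' := hC.smul_mem (1 + t + t * K)⁻¹ (by positivity) _ hB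
  rw [smul_add, smul_smul, inv_mul_cancel₀ hpos.ne', one_smul, smul_smul] at hC'
  have hle := hσle _ ⟨by positivity, hC'⟩
  rw [inv_mul_le_iff₀ hpos] at hle
  have : 4 * θ = K + 2 := by rw [hθ]; ring
  nlinarith [mul_pos ht hσpos]

end IsCurvatureCone

end Pool.Agent.H16R3.Curv
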