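import Pool.Agent.H16R3.Curv.Stay

set_option autoImplicit false

open Set Matrix Finset Filter Topology

namespace Pool.Agent.H16R3.Curv

variable {n : ℕ}

lemma scal_act (g : Matrix (Fin n) (Fin n) ℝ) (hg : g ∈ Matrix.orthogonalGroup (Fin n) ℝ)
    (R : Tensor4 n) : scal (act g R) = scal R := by
  have hgg : g * gᵀ = 1 := (Matrix.mem_orthogonalGroup_iff (Fin n) ℝ).1 hg
  have hent : ∀ a c, ∑ i, g a i * g c i = dl a c := by
    intro a c
    have := congrFun (congrFun hgg a) c
    rw [Matrix.mul_apply, Matrix.one_apply] at this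
    simpa [dl] using this
  unfold scal act
  have e1 : ∑ i, ∑ j, ∑ a, ∑ b, ∑ c, ∑ d, g a i * g b j * g c i * g d j * R a b c d =
      ∑ a, ∑ b, ∑ c, ∑ d, (∑ i, g a i * g c i) * (∑ j, g b j * g d j) * R a b c d := by
    simp only [sum4]
    have c1 : ∀ i, ∑ j, ∑ x : Fin n × Fin n × Fin n × Fin n,
        g x.1 i * g x.2.1 j * g x.2.2.1 i * g x.2.2.2 j * R x.1 x.2.1 x.2.2.1 x.2.2.2 =
        ∑ x : Fin n × Fin n × Fin n × Fin n, ∑ j,
        g x.1 i * g x.2.1 j * g x.2.2.1 i * g x.2.2.2 j * R x.1 x.2.1 x.2.2.1 x.2.2.2 :=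
      fun i => Finset.sum_comm
    simp_rw [c1]
    rw [Finset.sum_comm]
    refine Finset.sum_congr rfl fun x _ => ?_
    rw [Finset.sum_mul_sum, Finset.sum_mul]
    refine Finset.sum_congr rfl fun i _ => ?_
    rw [Finset.sum_mul]
    exact Finset.sum_congr rfl fun j _ => by ring
  rw [e1]
  simp_rw [hent]
  have e2 : ∀ a b c d : Fin n, dl a c * dl b d * R a b c d = dl a c * (dl b d * R a b c d) :=
    fun a b c d => by ring
  simp_rw [e2, ← Finset.mul_sum, sum_dl]

lemma scalCone_isCurvatureCone (hn : 4 ≤ n) :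
    IsCurvatureCone n {R : Tensor4 n | R ∈ CurvOp n ∧ 0 ≤ scal R} := by
  let L : Tensor4 n →L[ℝ] ℝ := LinearMap.toContinuousLinearMap
    { toFun := scal, map_add' := scal_add, map_smul' := scal_smul }
  have hL : ∀ R, L R = scal R := fun R => rfl
  have hcont : Continuous (scal : Tensor4 n → ℝ) := L.continuous
  refine ⟨fun R hR => hR.1, ?_, ?_, ?_, ?_, ?_⟩
  · exact (Submodule.closed_of_finiteDimensional (CurvOp n)).inter
      (isClosed_Ici.preimage hcont)
  · intro R hR S hS a b ha hb _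
    refine ⟨(CurvOp n).add_mem ((CurvOp n).smul_mem _ hR.1) ((CurvOp n).smul_mem _ hS.1), ?_⟩
    rw [scal_add, scal_smul, scal_smul]
    exact add_nonneg (mul_nonneg ha hR.2) (mul_nonneg hb hS.2)
  · intro c hc R hR
    exact ⟨(CurvOp n).smul_mem _ hR.1, by rw [scal_smul]; exact mul_nonneg hc hR.2⟩
  · intro g hg R hR
    exact ⟨act_mem g hR.1, by rw [scal_act g hg]; exact hR.2⟩
  · have hpos := scal_idOp_pos hn
    have hop : IsOpen {R : Tensor4 n | 0 < scal R} := isOpen_Ioi.preimage hcont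
    obtain ⟨ε, hε, hball⟩ := Metric.isOpen_iff.1 hop (idOp n) hpos
    exact ⟨ε, hε, fun R hR hd => ⟨hR, (hball hd).le⟩⟩

lemma scal_nonneg_of_sec {R : Tensor4 n} (hR : R ∈ CurvOp n) (hs : NonnegSec R) : 0 ≤ scal R := by
  refine Finset.sum_nonneg fun i _ => Finset.sum_nonneg fun j _ => ?_
  by_cases hij : i = j
  · subst hij; rw [diag_zero hR]
  have h := hs (fun a => dl i a) (fun a => dl j a)
    (by simp only [dotProduct]; rw [sum_dl i (fun a => dl i a), dl_self])
    (by simp only [dotProduct]; rw [sum_dl j (fun a => dl j a), dl_self])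
    (by simp only [dotProduct]; rw [sum_dl i (fun a => dl j a), dl_ne (Ne.symm hij)])
  have e : ∀ a b c d, R a b c d * dl i a * dl j b * dl i c * dl j d =
      dl i a * (dl j b * (dl i c * (dl j d * R a b c d))) := fun a b c d => by ring
  simp_rw [e, ← Finset.mul_sum, sum_dl] at h
  exact h

end Pool.Agent.H16R3.Curv
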