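import Mathlib

set_option autoImplicit false

/-!
# Algebraic curvature operators and the Ricci flow ODE

Curvature operators on `ℝⁿ` are written through their components
`R i j k l = ⟪R (e_i ∧ e_j), e_k ∧ e_l⟫`, where the inner product of `Λ² ℝⁿ` makes the bivectors
`e_i ∧ e_j` (`i < j`) orthonormal, and `Λ² ℝⁿ` is identified with the skew matrices `𝔰𝔬(n)` by
`e_i ∧ e_j ↦ E_ij - E_ji`.
-/

open Set Matrix

namespace Pool.Agent.H16R3.Curv

/-- Arrays `(R i j k l)` with four indices in `{1, …, n}`. -/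
abbrev Tensor4 (n : ℕ) : Type := Fin n → Fin n → Fin n → Fin n → ℝ

/-- The space of algebraic curvature operators on `ℝⁿ`, in components
`R i j k l = ⟪R (e_i ∧ e_j), e_k ∧ e_l⟫`: skew in the first and in the last pair (an operator on
`Λ² ℝⁿ`), self-adjoint, and satisfying the first Bianchi identity. -/
def CurvOp (n : ℕ) : Submodule ℝ (Tensor4 n) where
  carrier := {R | (∀ i j k l, R i j k l = -R j i k l) ∧ (∀ i j k l, R i j k l = -R i j l k) ∧
    (∀ i j k l, R i j k l = R k l i j) ∧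
    (∀ i j k l, R i j k l + R j k i l + R k i j l = 0)}
  zero_mem' := by
    refine ⟨?_, ?_, ?_, ?_⟩ <;> intro i j k l <;> simp
  add_mem' := by
    rintro R S ⟨h1, h2, h3, h4⟩ ⟨k1, k2, k3, k4⟩
    refine ⟨?_, ?_, ?_, ?_⟩ <;> intro i j k l <;> simp only [Pi.add_apply]
    · rw [h1 i j k l, k1 i j k l]; ring
    · rw [h2 i j k l, k2 i j k l]; ring
    · rw [h3 i j k l, k3 i j k l]
    · linear_combination h4 i j k l + k4 i j k l
  smul_mem' := by
    rintro c R ⟨h1, h2, h3, h4⟩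
    refine ⟨?_, ?_, ?_, ?_⟩ <;> intro i j k l <;> simp only [Pi.smul_apply, smul_eq_mul]
    · rw [h1 i j k l]; ring
    · rw [h2 i j k l]; ring
    · rw [h3 i j k l]
    · linear_combination c * h4 i j k l

/-- The identity operator of `Λ² ℝⁿ` (the curvature operator of the unit sphere). -/
def idOp (n : ℕ) : Tensor4 n := fun i j k l =>
  (if i = k ∧ j = l then 1 else 0) - (if i = l ∧ j = k then 1 else 0)

/-- The action of an `n × n` matrix `g`:
`⟪(g.R) (x ∧ y), z ∧ w⟫ = ⟪R (g x ∧ g y), g z ∧ g w⟫`. -/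
def act {n : ℕ} (g : Matrix (Fin n) (Fin n) ℝ) (R : Tensor4 n) : Tensor4 n := fun i j k l =>
  ∑ a, ∑ b, ∑ c, ∑ d, g a i * g b j * g c k * g d l * R a b c d

/-- The bivector `e_p ∧ e_q` as a skew matrix. -/
def wedge {n : ℕ} (p q : Fin n) : Matrix (Fin n) (Fin n) ℝ :=
  Matrix.single p q 1 - Matrix.single q p 1

/-- The bivector `R (e_p ∧ e_q)` as a skew matrix. -/
def image {n : ℕ} (R : Tensor4 n) (p q : Fin n) : Matrix (Fin n) (Fin n) ℝ :=
  Matrix.of fun k l => R p q k l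

/-- The square `R²` of the operator `R`:
`⟪R² (e_i ∧ e_j), e_k ∧ e_l⟫ = ∑_{p < q} R_{ijpq} R_{pqkl}` (the sum below runs over all `p, q`,
so each `e_p ∧ e_q` is met twice). -/
noncomputable def sq {n : ℕ} (R : Tensor4 n) : Tensor4 n := fun i j k l =>
  (1 / 2) * ∑ p, ∑ q, R i j p q * R p q k l

/-- The operator `R^# = ad ∘ (R ∧ R) ∘ ad^*`, that is
`⟪R^# α, β⟫ = ½ ∑_{a,b} ⟪[R ω_a, R ω_b], α⟫ ⟪[ω_a, ω_b], β⟫` for the orthonormal basis
`ω_a = e_p ∧ e_q`, `p < q`, of `Λ² ℝⁿ ≅ 𝔰𝔬(n)` (the sum below runs over all `p, q, r, s`, so each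
pair `(a, b)` is met four times: `½ · ¼ = ⅛`). -/
noncomputable def sharp {n : ℕ} (R : Tensor4 n) : Tensor4 n := fun i j k l =>
  (1 / 8) * ∑ p, ∑ q, ∑ r, ∑ s,
    (image R p q * image R r s - image R r s * image R p q) i j *
      (wedge p q * wedge r s - wedge r s * wedge p q) k l

/-- The quadratic term `Q(R) = R² + R^#` of the evolution equation of the curvature operator. -/
noncomputable def Q {n : ℕ} (R : Tensor4 n) : Tensor4 n := sq R + sharp R

/-- Nonnegative sectional curvature: `⟪R (x ∧ y), x ∧ y⟫ ≥ 0` for all orthonormal `x, y`. -/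
def NonnegSec {n : ℕ} (R : Tensor4 n) : Prop :=
  ∀ x y : Fin n → ℝ, x ⬝ᵥ x = 1 → y ⬝ᵥ y = 1 → x ⬝ᵥ y = 0 →
    0 ≤ ∑ i, ∑ j, ∑ k, ∑ l, R i j k l * x i * y j * x k * y l

/-- The scalar curvature `∑_{i,j} R_{ijij}`. -/
def scal {n : ℕ} (R : Tensor4 n) : ℝ := ∑ i, ∑ j, R i j i j

/-- A closed convex `O(n)`-invariant cone of algebraic curvature operators whose interior
(relative to the space of algebraic curvature operators) contains the identity. -/
structure IsCurvatureCone (n : ℕ) (C : Set (Tensor4 n)) : Prop where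
  subset : ∀ R ∈ C, R ∈ CurvOp n
  isClosed : IsClosed C
  convex : Convex ℝ C
  smul_mem : ∀ c : ℝ, 0 ≤ c → ∀ R ∈ C, c • R ∈ C
  invariant : ∀ g ∈ Matrix.orthogonalGroup (Fin n) ℝ, ∀ R ∈ C, act g R ∈ C
  interior : ∃ ε > 0, ∀ R ∈ CurvOp n, dist R (idOp n) < ε → R ∈ C

/-- Ricci flow invariance: every solution of `R' = Q(R)` that starts in `C` stays in `C` on its
interval of existence `[0, T)`. -/
def RicciFlowInvariant {n : ℕ} (C : Set (Tensor4 n)) : Prop :=
  ∀ (T : ℝ) (R : ℝ → Tensor4 n), R 0 ∈ C →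
    (∀ t ∈ Ico 0 T, HasDerivWithinAt R (Q (R t)) (Ico 0 T) t) → ∀ t ∈ Ico 0 T, R t ∈ C

end Pool.Agent.H16R3.Curv
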