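import Pool.Agent.H16R3.Curv.Basic

set_option autoImplicit false

open Set Matrix Finset

namespace Pool.Agent.H16R3.Curv

variable {n : ℕ}

/-- index formula for `R^#` -/
lemma sharp_index (R : Tensor4 n) (hR : R ∈ CurvOp n) (i j k l : Fin n) :
    sharp R i j k l = ∑ p, ∑ q, (R i p k q * R j p l q - R i p l q * R j p k q) := by
  obtain ⟨h1, h2, h3, -⟩ := hR
  rw [sharp_eq R h1]
  have : ∀ m, (image R k m * image R m l - image R m l * image R k m) i j
      = ∑ p, (R i p k m * R j p l m - R i p l m * R j p k m) := by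
    intro m
    rw [Matrix.sub_apply, Matrix.mul_apply, Matrix.mul_apply, ← Finset.sum_sub_distrib]
    refine Finset.sum_congr rfl fun p _ => ?_
    show R k m i p * R m l p j - R m l i p * R k m p j = _
    rw [h3 k m i p, h3 m l p j, h3 m l i p, h3 k m p j, h1 p j m l, h2 j p m l, h2 i p m l,
      h1 p j k m]
    ring
  simp_rw [this]
  exact Finset.sum_comm

/-- the Kronecker delta -/
def dl (a b : Fin n) : ℝ := if a = b then 1 else 0

lemma dl_self (a : Fin n) : dl a a = 1 := by simp [dl]

lemma dl_comm (a b : Fin n) : dl a b = dl b a := by simp [dl, eq_comm]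

lemma sum_dl (a : Fin n) (G : Fin n → ℝ) : ∑ q, dl a q * G q = G a := by
  simp [dl]

lemma dl_ne {a b : Fin n} (h : a ≠ b) : dl a b = 0 := by simp [dl, h]

/-- the curvature operator that is diagonal in the basis `e_i ∧ e_j`, with eigenvalues `f i j` -/
def diagT (f : Fin n → Fin n → ℝ) : Tensor4 n := fun i j k l =>
  f i j * (dl i k * dl j l - dl i l * dl j k)

lemma dl_mul_of {a b : Fin n} (G H : Fin n → ℝ) (h : a = b → G a = H a) :
    dl a b * G a = dl a b * H a := by
  by_cases hab : a = b
  · rw [h hab]
  · simp [dl, hab]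

lemma diagT_mem (f : Fin n → Fin n → ℝ) (hf : ∀ i j, f i j = f j i) : diagT f ∈ CurvOp n := by
  refine ⟨?_, ?_, ?_, ?_⟩ <;> intro i j k l <;> simp only [diagT]
  · rw [hf j i]; ring
  · ring
  · by_cases h1 : i = k
    · by_cases h2 : j = l
      · subst h1; subst h2; ring
      · by_cases h3 : i = l
        · by_cases h4 : j = k
          · subst h3; subst h4; subst h1; ring
          · simp [dl, h2, h4, Ne.symm h2, Ne.symm h4]
        · simp [dl, h2, h3, Ne.symm h2, Ne.symm h3]
    · by_cases h3 : i = l
      · by_cases h4 : j = k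
        · subst h3; subst h4; rw [hf j i]; simp [dl, h1, Ne.symm h1]
        · simp [dl, h1, h4, Ne.symm h1, Ne.symm h4]
      · simp [dl, h1, h3, Ne.symm h1, Ne.symm h3]
  · by_cases hij : i = j
    · subst hij
      by_cases hik : i = k
      · subst hik; ring
      · simp only [dl_ne hik, dl_ne (Ne.symm hik)]; rw [hf k i]; ring
    · by_cases hik : i = k
      · subst hik
        simp only [dl_self, dl_ne hij, dl_ne (Ne.symm hij)]; rw [hf j i]; ring
      · by_cases hjk : j = k
        · subst hjk
          simp only [dl_self, dl_ne hij, dl_ne (Ne.symm hij)]; rw [hf j i]; ring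
        · simp only [dl_ne hij, dl_ne (Ne.symm hij), dl_ne hik, dl_ne (Ne.symm hik), dl_ne hjk,
            dl_ne (Ne.symm hjk)]; ring

lemma sq_diagT (f : Fin n → Fin n → ℝ) (hf : ∀ i j, f i j = f j i) :
    sq (diagT f) = diagT (fun i j => f i j ^ 2) := by
  funext i j k l
  simp only [sq, diagT]
  have e1 : ∀ p, ∑ q, f i j * (dl i p * dl j q - dl i q * dl j p) *
      (f p q * (dl p k * dl q l - dl p l * dl q k)) =
      dl i p * (f i j * (f p j * (dl p k * dl j l - dl p l * dl j k))) -
      dl j p * (f i j * (f p i * (dl p k * dl i l - dl p l * dl i k))) := by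
    intro p
    calc ∑ q, f i j * (dl i p * dl j q - dl i q * dl j p) *
          (f p q * (dl p k * dl q l - dl p l * dl q k))
        = ∑ q, (dl j q * (f i j * dl i p * (f p q * (dl p k * dl q l - dl p l * dl q k))) -
            dl i q * (f i j * dl j p * (f p q * (dl p k * dl q l - dl p l * dl q k)))) :=
          Finset.sum_congr rfl fun q _ => by ring
      _ = _ := by
          rw [Finset.sum_sub_distrib, sum_dl, sum_dl]; ring
  simp_rw [e1]
  rw [Finset.sum_sub_distrib, sum_dl i (fun p => f i j * (f p j * (dl p k * dl j l - dl p l * dl j k))),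
    sum_dl j (fun p => f i j * (f p i * (dl p k * dl i l - dl p l * dl i k)))]
  rw [hf j i]; ring

lemma sharp_diagT (f : Fin n → Fin n → ℝ) (hf : ∀ i j, f i j = f j i) (h0 : ∀ i, f i i = 0) :
    sharp (diagT f) = diagT (fun i j => ∑ p, f i p * f j p) := by
  have key : ∀ i j k l : Fin n, ∑ p, ∑ q, diagT f i p k q * diagT f j p l q
      = dl i k * dl j l * (∑ p, f i p * f j p) + dl j i * (dl k l * f i k ^ 2) := by
    intro i j k l
    have e1 : ∀ p, ∑ q, diagT f i p k q * diagT f j p l q =
        dl i k * dl j l * (f i p * f j p) - dl j p * (f i p * f j p * dl i k * dl p l) -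
          dl i p * (f i p * f j p * dl p k * dl j l) +
          dl k p * (f i p * f j p * dl j i * dl p l) := by
      intro p
      calc ∑ q, diagT f i p k q * diagT f j p l q
          = ∑ q, (dl p q * (f i p * f j p * dl i k * (dl j l * dl p q - dl j q * dl p l)) -
              dl i q * (f i p * f j p * dl p k * (dl j l * dl p q - dl j q * dl p l))) :=
            Finset.sum_congr rfl fun q _ => by simp only [diagT]; ring
        _ = _ := by
            rw [Finset.sum_sub_distrib, sum_dl, sum_dl, dl_self, dl_comm p i, dl_comm k p]; ring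
    simp_rw [e1]
    rw [Finset.sum_add_distrib, Finset.sum_sub_distrib, Finset.sum_sub_distrib,
      sum_dl j (fun p => f i p * f j p * dl i k * dl p l),
      sum_dl i (fun p => f i p * f j p * dl p k * dl j l),
      sum_dl k (fun p => f i p * f j p * dl j i * dl p l), ← Finset.mul_sum]
    simp only [h0]
    by_cases hij : j = i
    · subst hij; ring
    · rw [dl_ne hij]; ring
  funext i j k l
  rw [sharp_index _ (diagT_mem f hf)]
  simp_rw [Finset.sum_sub_distrib]
  rw [key i j k l, key i j l k]
  simp only [diagT]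
  rw [dl_comm l k]
  by_cases hkl : k = l
  · subst hkl; ring
  · rw [dl_ne hkl]; ring

lemma Q_diagT (f : Fin n → Fin n → ℝ) (hf : ∀ i j, f i j = f j i) (h0 : ∀ i, f i i = 0) :
    Q (diagT f) = diagT (fun i j => f i j ^ 2 + ∑ p, f i p * f j p) := by
  unfold Q
  rw [sq_diagT f hf, sharp_diagT f hf h0]
  funext i j k l
  simp only [diagT, Pi.add_apply]
  ring

end Pool.Agent.H16R3.Curv
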