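import Pool.Agent.H16R3.Curv.CP2

set_option autoImplicit false

open Set Matrix Finset Filter Topology

namespace Pool.Agent.H16R3.Curv

variable {n : ℕ}

/-- `c I₄ + d W`, where `I₄` is the identity of `Λ²` of the 4-plane spanned by `e (s a)` and `W` the
Weyl part of the curvature operator of `ℂP²`. -/
noncomputable def G (s : Fin 4 → Fin n) (c d : ℝ) : Tensor4 n :=
  ∑ a, (![(c + 4 * d) / 2, (c - 2 * d) / 2, (c - 2 * d) / 2, c / 2, c / 2, c / 2] :
    Fin 6 → ℝ) a • tsq (bas s a)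

lemma G_eq (s : Fin 4 → Fin n) (c d : ℝ) : G s c d = c • G s 1 0 + d • G s 0 1 := by
  simp only [G, Finset.smul_sum, ← Finset.sum_add_distrib, smul_smul, ← add_smul]
  refine Finset.sum_congr rfl fun a _ => ?_
  congr 1
  fin_cases a <;> simp <;> ring

lemma Q_G (s : Fin 4 → Fin n) (hs : Function.Injective s) (c d : ℝ) :
    Q (G s c d) = G s (3 * c ^ 2) (6 * d ^ 2) := by
  have h := Q_bas s hs (c + 4 * d) (c - 2 * d) c
  rw [G, h, G]
  refine Finset.sum_congr rfl fun a _ => ?_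
  congr 1
  fin_cases a <;> simp <;> ring

lemma wedge_dl (p q i j : Fin n) : wedge p q i j = dl p i * dl q j - dl q i * dl p j := by
  rw [wedge_apply]; simp only [dl, ite_and]; split_ifs <;> simp

lemma G_apply (s : Fin 4 → Fin n) (c d : ℝ) (i j k l : Fin n) :
    G s c d i j k l = (c + 4 * d) / 2 * (bas s 0 i j * bas s 0 k l) +
      (c - 2 * d) / 2 * (bas s 1 i j * bas s 1 k l) + (c - 2 * d) / 2 * (bas s 2 i j * bas s 2 k l) +
      c / 2 * (bas s 3 i j * bas s 3 k l) + c / 2 * (bas s 4 i j * bas s 4 k l) +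
      c / 2 * (bas s 5 i j * bas s 5 k l) := by
  simp only [G, Fin.sum_univ_six, Pi.add_apply, Pi.smul_apply, tsq, smul_eq_mul, Matrix.cons_val,
    Matrix.cons_val_zero, Matrix.cons_val_one]

lemma G_mem (s : Fin 4 → Fin n) (c d : ℝ) : G s c d ∈ CurvOp n := by
  refine ⟨?_, ?_, ?_, ?_⟩ <;> intro i j k l <;> simp only [G_apply, bas, Matrix.cons_val,
    Matrix.cons_val_zero, Matrix.cons_val_one, Matrix.add_apply, Matrix.sub_apply, wedge_dl] <;>
    ring

lemma G_sec (s : Fin 4 → Fin n) : NonnegSec (G s 1 1) := by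
  intro x y _ _ _
  have h1 : ∀ i j k l, G s 1 1 i j k l * x i * y j * x k * y l =
      ∑ a, (![5 / 2, -1 / 2, -1 / 2, 1 / 2, 1 / 2, 1 / 2] : Fin 6 → ℝ) a *
        ((bas s a i j * x i * y j) * (bas s a k l * x k * y l)) := by
    intro i j k l
    rw [G_apply]
    simp only [Fin.sum_univ_six, Matrix.cons_val, Matrix.cons_val_zero, Matrix.cons_val_one]
    ring
  have h2 : ∑ i, ∑ j, ∑ k, ∑ l, G s 1 1 i j k l * x i * y j * x k * y l =
      ∑ a, (![5 / 2, -1 / 2, -1 / 2, 1 / 2, 1 / 2, 1 / 2] : Fin 6 → ℝ) a *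
        (∑ i, ∑ j, bas s a i j * x i * y j) ^ 2 := by
    simp_rw [h1]
    have c1 : ∀ i j k, ∑ l, ∑ a, (![5 / 2, -1 / 2, -1 / 2, 1 / 2, 1 / 2, 1 / 2] : Fin 6 → ℝ) a *
        ((bas s a i j * x i * y j) * (bas s a k l * x k * y l)) =
        ∑ a, ∑ l, (![5 / 2, -1 / 2, -1 / 2, 1 / 2, 1 / 2, 1 / 2] : Fin 6 → ℝ) a *
        ((bas s a i j * x i * y j) * (bas s a k l * x k * y l)) := fun _ _ _ => Finset.sum_comm
    simp_rw [c1]
    have c2 : ∀ i j, ∑ k, ∑ a, ∑ l, (![5 / 2, -1 / 2, -1 / 2, 1 / 2, 1 / 2, 1 / 2] : Fin 6 → ℝ) a *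
        ((bas s a i j * x i * y j) * (bas s a k l * x k * y l)) =
        ∑ a, ∑ k, ∑ l, (![5 / 2, -1 / 2, -1 / 2, 1 / 2, 1 / 2, 1 / 2] : Fin 6 → ℝ) a *
        ((bas s a i j * x i * y j) * (bas s a k l * x k * y l)) := fun _ _ => Finset.sum_comm
    simp_rw [c2]
    have c3 : ∀ i, ∑ j, ∑ a, ∑ k, ∑ l, (![5 / 2, -1 / 2, -1 / 2, 1 / 2, 1 / 2, 1 / 2] : Fin 6 → ℝ) a *
        ((bas s a i j * x i * y j) * (bas s a k l * x k * y l)) =
        ∑ a, ∑ j, ∑ k, ∑ l, (![5 / 2, -1 / 2, -1 / 2, 1 / 2, 1 / 2, 1 / 2] : Fin 6 → ℝ) a *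
        ((bas s a i j * x i * y j) * (bas s a k l * x k * y l)) := fun _ => Finset.sum_comm
    simp_rw [c3]
    rw [Finset.sum_comm]
    refine Finset.sum_congr rfl fun a _ => ?_
    rw [pow_two]
    simp_rw [← Finset.mul_sum]
    congr 1
    rw [Finset.sum_mul]
    refine Finset.sum_congr rfl fun i _ => ?_
    rw [Finset.sum_mul]
  have h3 : ∀ p q : Fin n, ∑ i, ∑ j, wedge p q i j * x i * y j = x p * y q - x q * y p := by
    intro p q
    have := sum_wedge' (fun i j => x i * y j) p q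
    rw [← this]
    refine Finset.sum_congr rfl fun i _ => Finset.sum_congr rfl fun j _ => by ring
  rw [h2]
  have h4 : ∑ a, (![5 / 2, -1 / 2, -1 / 2, 1 / 2, 1 / 2, 1 / 2] : Fin 6 → ℝ) a *
        (∑ i, ∑ j, bas s a i j * x i * y j) ^ 2 =
      3 * ((x (s 0) * y (s 1) - x (s 1) * y (s 0)) + (x (s 2) * y (s 3) - x (s 3) * y (s 2))) ^ 2 := by
    simp only [Fin.sum_univ_six, Matrix.cons_val, Matrix.cons_val_zero, Matrix.cons_val_one, bas,
      Matrix.add_apply, Matrix.sub_apply, add_mul, sub_mul, Finset.sum_add_distrib,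
      Finset.sum_sub_distrib, h3]
    ring
  rw [h4]; positivity

/-- `W ∈ C` for the Weyl part `W = G s 0 1` of the curvature operator of `ℂP²`. -/
lemma W_mem {C : Set (Tensor4 n)} (hC : IsCurvatureCone n C) (hRF : RicciFlowInvariant C)
    (hsec : ∀ R ∈ CurvOp n, NonnegSec R → R ∈ C) (s : Fin 4 → Fin n) (hs : Function.Injective s) :
    G s 0 1 ∈ C := by
  have hstay : ∀ t ∈ Ico (0 : ℝ) (1 / 6), G s (1 / (1 - 3 * t)) (1 / (1 - 6 * t)) ∈ C := by
    refine hRF (1 / 6) (fun t => G s (1 / (1 - 3 * t)) (1 / (1 - 6 * t))) ?_ ?_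
    · simpa using hsec _ (G_mem s 1 1) (G_sec s)
    · intro t ht
      have h3 : (1 - 3 * t) ≠ 0 := by
        have := ht.2; intro h; linarith
      have h6 : (1 - 6 * t) ≠ 0 := by
        have := ht.2; intro h; linarith
      refine HasDerivAt.hasDerivWithinAt ?_
      have hc : HasDerivAt (fun t : ℝ => 1 / (1 - 3 * t)) (3 * (1 / (1 - 3 * t)) ^ 2) t := by
        have h := ((hasDerivAt_id' t).const_mul 3).const_sub 1
        have h' := h.inv h3
        simp only [one_div]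
        refine h'.congr_deriv ?_
        rw [inv_pow]; ring
      have hd : HasDerivAt (fun t : ℝ => 1 / (1 - 6 * t)) (6 * (1 / (1 - 6 * t)) ^ 2) t := by
        have h := ((hasDerivAt_id' t).const_mul 6).const_sub 1
        have h' := h.inv h6
        simp only [one_div]
        refine h'.congr_deriv ?_
        rw [inv_pow]; ring
      have h := (hc.smul_const (G s 1 0)).add (hd.smul_const (G s 0 1))
      rw [Q_G s hs, G_eq s (3 * _) (6 * _)]
      refine h.congr_of_eventuallyEq (Eventually.of_forall fun u => ?_)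
      exact G_eq s _ _
  have hf : Tendsto (fun t : ℝ => ((1 - 6 * t) / (1 - 3 * t)) • G s 1 0 + G s 0 1)
      (𝓝[<] (1 / 6 : ℝ)) (𝓝 (G s 0 1)) := by
    have hc : ContinuousAt (fun t : ℝ => ((1 - 6 * t) / (1 - 3 * t)) • G s 1 0 + G s 0 1)
        (1 / 6 : ℝ) := by
      have : ContinuousAt (fun t : ℝ => (1 - 6 * t) / (1 - 3 * t)) (1 / 6 : ℝ) := by
        refine ContinuousAt.div (by fun_prop) (by fun_prop) (by norm_num)
      exact (this.smul continuousAt_const).add continuousAt_const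
    have h := hc.tendsto.mono_left (nhdsWithin_le_nhds (s := Iio (1 / 6 : ℝ)))
    convert h using 2
    norm_num
  refine hC.isClosed.mem_of_tendsto hf ?_
  filter_upwards [Ico_mem_nhdsLT (show (0 : ℝ) < 1 / 6 by norm_num)] with t ht
  have h := hC.smul_mem (1 - 6 * t) (by have := ht.2; linarith) _ (hstay t ht)
  have h6 : (1 - 6 * t) ≠ 0 := by
    have := ht.2; intro h; linarith
  rw [G_eq, smul_add, smul_smul, smul_smul, mul_one_div, mul_one_div, div_self h6, one_smul] at h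
  exact h

end Pool.Agent.H16R3.Curv
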