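import Pool.Agent.H16R3.Curv.Rigid

set_option autoImplicit false

open Set Matrix Finset Filter Topology

namespace Pool.Agent.H16R3.Curv

variable {n : ℕ}

lemma scal_add (R S : Tensor4 n) : scal (R + S) = scal R + scal S := by
  simp only [scal, Pi.add_apply, Finset.sum_add_distrib]

lemma scal_smul (c : ℝ) (R : Tensor4 n) : scal (c • R) = c * scal R := by
  simp only [scal, Pi.smul_apply, smul_eq_mul, Finset.mul_sum]

lemma ip_smul_left (c : ℝ) (A B : Tensor4 n) : ip (c • A) B = c * ip A B := by
  simp only [ip, sum4, Pi.smul_apply, smul_eq_mul, Finset.mul_sum]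
  exact Finset.sum_congr rfl fun x _ => by ring

lemma ip_add_left (A B D : Tensor4 n) : ip (A + B) D = ip A D + ip B D := by
  simp only [ip, sum4, Pi.add_apply, add_mul, Finset.sum_add_distrib]

lemma ip_comm (A B : Tensor4 n) : ip A B = ip B A := by
  simp only [ip, sum4]
  exact Finset.sum_congr rfl fun x _ => mul_comm _ _

lemma ip_self_eq_zero {A : Tensor4 n} (h : ip A A = 0) : A = 0 := by
  simp only [ip, sum4] at h
  have := (Finset.sum_eq_zero_iff_of_nonneg (fun x _ => mul_self_nonneg _)).1 h
  funext i j k l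
  have h2 := this (i, j, k, l) (Finset.mem_univ _)
  simpa using mul_self_eq_zero.1 h2

lemma ip_idOp {R : Tensor4 n} (hR : R ∈ CurvOp n) : ip (idOp n) R = 2 * scal R := by
  rw [ip_comm, idOp_eq, ip_diagT hR, scal]
  congr 1
  refine Finset.sum_congr rfl fun i _ => Finset.sum_congr rfl fun j _ => ?_
  by_cases hij : i = j
  · subst hij; rw [diag_zero hR]; ring
  · rw [dl_ne hij]; ring

lemma scal_idOp_pos (hn : 4 ≤ n) : 0 < scal (idOp n) := by
  have h : scal (idOp n) = (n : ℝ) * ((n : ℝ) - 1) := by
    rw [idOp_eq]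
    simp only [scal, diagT]
    have e : ∀ i j : Fin n, (1 - dl i j) * (dl i i * dl j j - dl i j * dl j i) = 1 - dl i j * 1 := by
      intro i j
      rw [dl_self, dl_self]
      by_cases hij : i = j
      · subst hij; rw [dl_self]; ring
      · rw [dl_ne hij]; ring
    simp_rw [e, Finset.sum_sub_distrib, sum_dl]
    simp
    ring
  rw [h]
  have : (4 : ℝ) ≤ n := by exact_mod_cast hn
  nlinarith

/-- Riesz representation on the space of algebraic curvature operators -/
lemma riesz (f : Tensor4 n →ₗ[ℝ] ℝ) : ∃ Φ ∈ CurvOp n, ∀ R ∈ CurvOp n, f R = ip Φ R := by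
  let B : LinearMap.BilinForm ℝ (CurvOp n) :=
    LinearMap.mk₂ ℝ (fun A R => ip (A : Tensor4 n) (R : Tensor4 n))
      (fun A B D => by simp [ip_add_left]) (fun c A D => by simp [ip_smul_left])
      (fun A B D => by simp [ip_add_right]) (fun c A D => by simp [ip_smul_right])
  have hB : B.Nondegenerate := by
    constructor
    · intro A hA
      have := hA A
      simp only [B, LinearMap.mk₂_apply] at this
      exact Subtype.ext (ip_self_eq_zero this)
    · intro A hA
      have := hA A
      simp only [B, LinearMap.mk₂_apply] at this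
      exact Subtype.ext (ip_self_eq_zero this)
  let g : Module.Dual ℝ (CurvOp n) := f.comp (CurvOp n).subtype
  refine ⟨((B.toDual hB).symm g : CurvOp n), Subtype.prop _, fun R hR => ?_⟩
  have h := LinearMap.BilinForm.apply_toDual_symm_apply (B := B) (hB := hB) g ⟨R, hR⟩
  simp only [B, LinearMap.mk₂_apply, g] at h
  exact h.symm

/-- **Theorem.** Let `n ≥ 4`. A Ricci flow invariant curvature cone which contains all operators
with nonnegative sectional curvature is the cone of operators with nonnegative scalar curvature. -/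
theorem main (hn : 4 ≤ n) {C : Set (Tensor4 n)} (hC : IsCurvatureCone n C)
    (hne : ∃ R ∈ CurvOp n, R ∉ C) (hRF : RicciFlowInvariant C)
    (hsec : ∀ R ∈ CurvOp n, NonnegSec R → R ∈ C) : C = {R | R ∈ CurvOp n ∧ 0 ≤ scal R} := by
  -- Step 1: the Weyl operators
  have hW : ∀ s : Fin 4 → Fin n, Function.Injective s → G s 0 1 ∈ C :=
    fun s hs => W_mem hC hRF hsec s hs
  have hWneg : ∀ s : Fin 4 → Fin n, Function.Injective s → -G s 0 1 ∈ C := by
    intro s hs
    have h1 := hW _ (inj_of_ne hs 0 2 3 1 (by decide) (by decide) (by decide) (by decide)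
      (by decide) (by decide))
    have h2 := hW _ (inj_of_ne hs 0 3 1 2 (by decide) (by decide) (by decide) (by decide)
      (by decide) (by decide))
    have h3 := hC.add_mem h1 h2
    have e := W_cyc s
    have : -G s 0 1 = G ![s 0, s 2, s 3, s 1] 0 1 + G ![s 0, s 3, s 1, s 2] 0 1 := by
      rw [neg_eq_iff_add_eq_zero, ← add_assoc]; exact e
    rw [this]; exact h3
  have hWh : ∀ s : Fin 4 → Fin n, Function.Injective s → Wh (hs4 s) ∈ C := by
    intro s hs
    rw [Wh_eq s hs]
    refine hC.smul_mem _ (by norm_num) _ (hC.add_mem (hW s hs) (hW _ ?_))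
    exact inj_of_ne hs 1 0 2 3 (by decide) (by decide) (by decide) (by decide) (by decide)
      (by decide)
  have hWhneg : ∀ s : Fin 4 → Fin n, Function.Injective s → -Wh (hs4 s) ∈ C := by
    intro s hs
    rw [Wh_eq s hs, ← smul_neg, neg_add]
    refine hC.smul_mem _ (by norm_num) _ (hC.add_mem (hWneg s hs) (hWneg _ ?_))
    exact inj_of_ne hs 1 0 2 3 (by decide) (by decide) (by decide) (by decide) (by decide)
      (by decide)
  -- Step 2: the Ricci-type operators
  have hV : ∀ s : Fin 4 → Fin n, Function.Injective s → Vh (hs4 s) ∈ C := fun s hs =>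
    hC.V_mem hRF _ (hs4_vals s hs) (hs4_sum s) (hs4_sum_sq s hs) (hWh s hs) (hWhneg s hs)
  have hVneg : ∀ s : Fin 4 → Fin n, Function.Injective s → -Vh (hs4 s) ∈ C := by
    intro s hs
    have h1 := hV _ (inj_of_ne hs 2 3 0 1 (by decide) (by decide) (by decide) (by decide)
      (by decide) (by decide))
    have e : Vh (hs4 ![s 2, s 3, s 0, s 1]) = -Vh (hs4 s) := by
      funext i j k l
      simp only [Vh, diagT, hs4, Matrix.cons_val, Matrix.cons_val_zero, Matrix.cons_val_one,
        Pi.neg_apply]
      ring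
    rwa [e] at h1
  -- Step 3: nonnegative scalar curvature suffices
  have hsup : ∀ R ∈ CurvOp n, 0 ≤ scal R → R ∈ C := by
    intro R hR hsc
    by_contra hRC
    obtain ⟨f, u, hf, hu⟩ := geometric_hahn_banach_closed_point hC.convex hC.isClosed hRC
    obtain ⟨ε, hε, habs⟩ := hC.absorb
    have h0 : (0 : Tensor4 n) ∈ C := by
      have := habs 1 0 one_pos (CurvOp n).zero_mem (by simpa using hε)
      simpa using hC.smul_mem 0 le_rfl _ this
    have hu0 : 0 < u := by
      have := hf 0 h0
      simpa using this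
    have hfle : ∀ S ∈ C, f S ≤ 0 := by
      intro S hS
      by_contra hpos
      push Not at hpos
      have := hf _ (hC.smul_mem (u / f S) (by positivity) _ hS)
      rw [map_smul, smul_eq_mul, div_mul_cancel₀ _ hpos.ne'] at this
      exact lt_irrefl _ this
    have hf0 : ∀ S, S ∈ C → -S ∈ C → f S = 0 := by
      intro S h1 h2
      have a := hfle S h1
      have b := hfle _ h2
      rw [map_neg] at b
      linarith
    obtain ⟨Φ, hΦ, hΦf⟩ := riesz (n := n) (f : Tensor4 n →ₗ[ℝ] ℝ)
    have hact : ∀ (g : Matrix (Fin n) (Fin n) ℝ) (S : Tensor4 n), act g (-S) = -act g S := by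
      intro g S
      funext i j k l
      simp only [act, Pi.neg_apply, mul_neg, Finset.sum_neg_distrib]
    obtain ⟨κ, hκ⟩ := perp_rigid hn hΦ (by
      intro g hg s hs
      have a1 := hC.invariant g hg _ (hW s hs)
      have a2 := hC.invariant g hg _ (hWneg s hs)
      have b1 := hC.invariant g hg _ (hV s hs)
      have b2 := hC.invariant g hg _ (hVneg s hs)
      rw [hact] at a2 b2
      refine ⟨?_, ?_⟩
      · rw [← hΦf _ (hC.subset _ a1)]; exact hf0 _ a1 a2
      · rw [← hΦf _ (hC.subset _ b1)]; exact hf0 _ b1 b2)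
    have hfR : ∀ S ∈ CurvOp n, f S = 2 * κ * scal S := by
      intro S hS
      have := hΦf S hS
      rw [hκ, ip_smul_left, ip_idOp hS] at this
      have h' : f S = κ * (2 * scal S) := this
      rw [h']; ring
    have hI : idOp n ∈ C := by
      have := habs 1 0 one_pos (CurvOp n).zero_mem (by simpa using hε)
      simpa using this
    have h1 := hfle _ hI
    rw [hfR _ idOp_mem] at h1
    have hκ0 : κ ≤ 0 := by
      by_contra hk
      push Not at hk
      have := mul_pos (mul_pos two_pos hk) (scal_idOp_pos hn)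
      linarith
    have h2 : 0 < f R := hu0.trans hu
    rw [hfR R hR] at h2
    nlinarith
  -- Step 4: conclusion
  refine Set.Subset.antisymm ?_ ?_
  · intro R hR
    refine ⟨hC.subset R hR, ?_⟩
    by_contra hneg
    push Not at hneg
    have hsI := scal_idOp_pos hn
    set c : ℝ := scal R / scal (idOp n) with hc
    have hcneg : c < 0 := div_neg_of_neg_of_pos hneg hsI
    have hmem : c • idOp n + (-1 : ℝ) • R ∈ C := by
      refine hsup _ ((CurvOp n).add_mem ((CurvOp n).smul_mem _ idOp_mem)
        ((CurvOp n).smul_mem _ (hC.subset R hR))) ?_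
      rw [scal_add, scal_smul, scal_smul, hc, div_mul_cancel₀ _ hsI.ne']
      linarith
    have h1 := hC.add_mem hmem hR
    have e : c • idOp n + (-1 : ℝ) • R + R = c • idOp n := by
      rw [neg_one_smul]; abel
    rw [e] at h1
    have h2 := hC.smul_mem (-c)⁻¹ (inv_nonneg.2 (by linarith)) _ h1
    have e2 : (-c)⁻¹ • c • idOp n = -idOp n := by
      rw [smul_smul, ← neg_one_smul ℝ (idOp n)]
      congr 1
      rw [inv_neg, neg_mul, inv_mul_cancel₀ hcneg.ne]
    rw [e2] at h2
    obtain ⟨E, hE, hEC⟩ := hne
    obtain ⟨K, hK, hKE⟩ := hC.absorb' E hE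
    have h3 := hC.add_mem hKE (hC.smul_mem K hK.le _ h2)
    refine hEC ?_
    have e3 : K • idOp n + E + K • -idOp n = E := by
      rw [smul_neg]; abel
    rwa [e3] at h3
  · rintro R ⟨hR, hsc⟩
    exact hsup R hR hsc

end Pool.Agent.H16R3.Curv
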