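import Pool.Agent.H16R3.Curv.Weyl

set_option autoImplicit false

open Set Matrix Finset Filter Topology

namespace Pool.Agent.H16R3.Curv

variable {n : ℕ}

lemma sum_quad (h : Fin n → ℝ) (a b c : ℝ) :
    ∑ p, (a + b * h p + c * h p ^ 2) = n * a + b * ∑ p, h p + c * ∑ p, h p ^ 2 := by
  rw [Finset.sum_add_distrib, Finset.sum_add_distrib, ← Finset.mul_sum, ← Finset.mul_sum]
  simp

lemma Q_poly (h : Fin n → ℝ) (h1 : ∀ i, h i = 0 ∨ h i = 1 ∨ h i = -1) (h2 : ∑ i, h i = 0)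
    (h3 : ∑ i, h i ^ 2 = 4) (σ θ : ℝ) :
    Q (diagT (fun i j => (1 - dl i j) *
      (1 + σ * ((h i + h j) / 2) + θ * ((h i ^ 2 * h j ^ 2 + 3 * (h i * h j)) / 2)))) =
    diagT (fun i j =>
      (1 + σ * ((h i + h j) / 2) + θ * ((h i ^ 2 * h j ^ 2 + 3 * (h i * h j)) / 2)) ^ 2 +
      ((n : ℝ) * ((1 + σ * h i / 2) * (1 + σ * h j / 2)) +
        4 * ((1 + σ * h i / 2) * (θ * h j ^ 2 / 2) + (1 + σ * h j / 2) * (θ * h i ^ 2 / 2) +
          (σ / 2 + 3 * θ * h i / 2) * (σ / 2 + 3 * θ * h j / 2) +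
          (θ * h i ^ 2 / 2) * (θ * h j ^ 2 / 2)) -
        (1 + σ * ((h i + h i) / 2) + θ * ((h i ^ 2 * h i ^ 2 + 3 * (h i * h i)) / 2)) *
        (1 + σ * ((h j + h i) / 2) + θ * ((h j ^ 2 * h i ^ 2 + 3 * (h j * h i)) / 2)) -
        (1 + σ * ((h i + h j) / 2) + θ * ((h i ^ 2 * h j ^ 2 + 3 * (h i * h j)) / 2)) *
        (1 + σ * ((h j + h j) / 2) + θ * ((h j ^ 2 * h j ^ 2 + 3 * (h j * h j)) / 2)))) := by
  rw [Q_diagT]
  rotate_left
  · intro i j; rw [dl_comm]; ring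
  · intro i; rw [dl_self]; ring
  refine diagT_congr _ _ fun i j hij => ?_
  have hc : ∀ p, h p ^ 3 = h p := by
    intro p; rcases h1 p with e | e | e <;> rw [e] <;> norm_num
  have e1 : ∀ p, (1 - dl i p) *
      (1 + σ * ((h i + h p) / 2) + θ * ((h i ^ 2 * h p ^ 2 + 3 * (h i * h p)) / 2)) *
      ((1 - dl j p) *
      (1 + σ * ((h j + h p) / 2) + θ * ((h j ^ 2 * h p ^ 2 + 3 * (h j * h p)) / 2))) =
      ((1 + σ * h i / 2) * (1 + σ * h j / 2) +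
        ((1 + σ * h i / 2) * (σ / 2 + 3 * θ * h j / 2) + (1 + σ * h j / 2) * (σ / 2 + 3 * θ * h i / 2) +
          (σ / 2 + 3 * θ * h i / 2) * (θ * h j ^ 2 / 2) +
          (σ / 2 + 3 * θ * h j / 2) * (θ * h i ^ 2 / 2)) * h p +
        ((1 + σ * h i / 2) * (θ * h j ^ 2 / 2) + (1 + σ * h j / 2) * (θ * h i ^ 2 / 2) +
          (σ / 2 + 3 * θ * h i / 2) * (σ / 2 + 3 * θ * h j / 2) +
          (θ * h i ^ 2 / 2) * (θ * h j ^ 2 / 2)) * h p ^ 2) -
      dl i p * ((1 + σ * ((h i + h p) / 2) + θ * ((h i ^ 2 * h p ^ 2 + 3 * (h i * h p)) / 2)) *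
        (1 + σ * ((h j + h p) / 2) + θ * ((h j ^ 2 * h p ^ 2 + 3 * (h j * h p)) / 2))) -
      dl j p * ((1 + σ * ((h i + h p) / 2) + θ * ((h i ^ 2 * h p ^ 2 + 3 * (h i * h p)) / 2)) *
        (1 + σ * ((h j + h p) / 2) + θ * ((h j ^ 2 * h p ^ 2 + 3 * (h j * h p)) / 2))) +
      dl i p * (dl j p *
        ((1 + σ * ((h i + h p) / 2) + θ * ((h i ^ 2 * h p ^ 2 + 3 * (h i * h p)) / 2)) *
        (1 + σ * ((h j + h p) / 2) + θ * ((h j ^ 2 * h p ^ 2 + 3 * (h j * h p)) / 2)))) := by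
    intro p
    have h4 : h p ^ 4 = h p ^ 2 := by
      calc h p ^ 4 = h p * h p ^ 3 := by ring
        _ = h p * h p := by rw [hc]
        _ = h p ^ 2 := by ring
    linear_combination ((σ / 2 + 3 * θ * h i / 2) * (θ * h j ^ 2 / 2) +
          (σ / 2 + 3 * θ * h j / 2) * (θ * h i ^ 2 / 2)) * hc p +
          (θ * h i ^ 2 / 2) * (θ * h j ^ 2 / 2) * h4
  have e2 : ∑ p, (1 - dl i p) *
      (1 + σ * ((h i + h p) / 2) + θ * ((h i ^ 2 * h p ^ 2 + 3 * (h i * h p)) / 2)) *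
      ((1 - dl j p) *
      (1 + σ * ((h j + h p) / 2) + θ * ((h j ^ 2 * h p ^ 2 + 3 * (h j * h p)) / 2))) =
      ((n : ℝ) * ((1 + σ * h i / 2) * (1 + σ * h j / 2)) +
        ((1 + σ * h i / 2) * (θ * h j ^ 2 / 2) + (1 + σ * h j / 2) * (θ * h i ^ 2 / 2) +
          (σ / 2 + 3 * θ * h i / 2) * (σ / 2 + 3 * θ * h j / 2) +
          (θ * h i ^ 2 / 2) * (θ * h j ^ 2 / 2)) * 4) -
      ((1 + σ * ((h i + h i) / 2) + θ * ((h i ^ 2 * h i ^ 2 + 3 * (h i * h i)) / 2)) *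
        (1 + σ * ((h j + h i) / 2) + θ * ((h j ^ 2 * h i ^ 2 + 3 * (h j * h i)) / 2))) -
      ((1 + σ * ((h i + h j) / 2) + θ * ((h i ^ 2 * h j ^ 2 + 3 * (h i * h j)) / 2)) *
        (1 + σ * ((h j + h j) / 2) + θ * ((h j ^ 2 * h j ^ 2 + 3 * (h j * h j)) / 2))) := by
    simp_rw [e1]
    rw [Finset.sum_add_distrib, Finset.sum_sub_distrib, Finset.sum_sub_distrib,
      sum_quad h, h2, h3, sum_dl, sum_dl, sum_dl, dl_ne (Ne.symm hij)]
    ring
  rw [e2, dl_ne hij]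
  ring

lemma IVW_eq (h : Fin n → ℝ) (σ θ : ℝ) : idOp n + σ • Vh h + θ • Wh h =
    diagT (fun i j => (1 - dl i j) *
      (1 + σ * ((h i + h j) / 2) + θ * ((h i ^ 2 * h j ^ 2 + 3 * (h i * h j)) / 2))) := by
  rw [idOp_eq, Vh, Wh, ← diagT_smul, ← diagT_smul, ← diagT_add, ← diagT_add]
  congr 1
  funext i j
  ring

lemma Q_IVW (h : Fin n → ℝ) (h1 : ∀ i, h i = 0 ∨ h i = 1 ∨ h i = -1) (h2 : ∑ i, h i = 0)
    (h3 : ∑ i, h i ^ 2 = 4) (σ θ : ℝ) :
    Q (idOp n + σ • Vh h + θ • Wh h) =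
      Q (idOp n + σ • Vh h) + (4 * θ * σ) • Vh h + (3 * θ ^ 2) • Wh h := by
  have e0 : idOp n + σ • Vh h = idOp n + σ • Vh h + (0 : ℝ) • Wh h := by simp
  conv_rhs => rw [e0]
  rw [IVW_eq, IVW_eq, Q_poly h h1 h2 h3, Q_poly h h1 h2 h3, Vh, Wh, ← diagT_smul, ← diagT_smul,
    ← diagT_add, ← diagT_add]
  refine diagT_congr _ _ fun i j hij => ?_
  rw [dl_ne hij]
  rcases h1 i with e | e | e <;> rcases h1 j with e' | e' | e' <;> rw [e, e'] <;> ring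

lemma Q_IV_mem (h : Fin n → ℝ) (σ : ℝ) : Q (idOp n + σ • Vh h) ∈ CurvOp n := by
  have e0 : idOp n + σ • Vh h = diagT (fun i j => (1 - dl i j) * (1 + σ * ((h i + h j) / 2))) := by
    rw [idOp_eq, Vh, ← diagT_smul, ← diagT_add]
    congr 1
    funext i j
    ring
  rw [e0, Q_diagT]
  · refine diagT_mem _ fun i j => ?_
    rw [dl_comm, add_comm (h i) (h j)]
    congr 1
    exact Finset.sum_congr rfl fun p _ => mul_comm _ _
  · intro i j; rw [dl_comm, add_comm (h i) (h j)]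
  · intro i; rw [dl_self]; ring

lemma Vh_mem (h : Fin n → ℝ) : Vh h ∈ CurvOp n :=
  diagT_mem _ fun i j => by rw [dl_comm, add_comm]

lemma Wh_mem (h : Fin n → ℝ) : Wh h ∈ CurvOp n :=
  diagT_mem _ fun i j => by rw [dl_comm, mul_comm (h i ^ 2), mul_comm (h i)]

section hs4

variable (s : Fin 4 → Fin n) (hs : Function.Injective s)

include hs in
lemma hs4_vals (i : Fin n) : hs4 s i = 0 ∨ hs4 s i = 1 ∨ hs4 s i = -1 := by
  have ne : ∀ i j : Fin 4, i ≠ j → s i ≠ s j := fun i j h => hs.ne h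
  have h01 := ne 0 1 (by decide)
  have h02 := ne 0 2 (by decide)
  have h03 := ne 0 3 (by decide)
  have h12 := ne 1 2 (by decide)
  have h13 := ne 1 3 (by decide)
  have h23 := ne 2 3 (by decide)
  unfold hs4
  by_cases a0 : s 0 = i
  · subst a0
    simp [dl_self, dl_ne h01.symm, dl_ne h02.symm, dl_ne h03.symm]
  by_cases a1 : s 1 = i
  · subst a1
    simp [dl_self, dl_ne h01, dl_ne h12.symm, dl_ne h13.symm]
  by_cases a2 : s 2 = i
  · subst a2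
    simp [dl_self, dl_ne h02, dl_ne h12, dl_ne h23.symm]
  by_cases a3 : s 3 = i
  · subst a3
    simp [dl_self, dl_ne h03, dl_ne h13, dl_ne h23]
  simp [dl_ne a0, dl_ne a1, dl_ne a2, dl_ne a3]

lemma hs4_sum : ∑ i, hs4 s i = 0 := by
  unfold hs4
  have e : ∀ a : Fin n, ∑ i, dl a i = 1 := by
    intro a
    have := sum_dl a (fun _ => (1 : ℝ))
    simpa using this
  rw [Finset.sum_sub_distrib, Finset.sum_sub_distrib, Finset.sum_add_distrib, e, e, e, e]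
  norm_num

include hs in
lemma hs4_sum_sq : ∑ i, hs4 s i ^ 2 = 4 := by
  have ne : ∀ i j : Fin 4, i ≠ j → s i ≠ s j := fun i j h => hs.ne h
  have h01 := ne 0 1 (by decide)
  have h02 := ne 0 2 (by decide)
  have h03 := ne 0 3 (by decide)
  have h12 := ne 1 2 (by decide)
  have h13 := ne 1 3 (by decide)
  have h23 := ne 2 3 (by decide)
  have e : ∀ i, hs4 s i ^ 2 = dl (s 0) i * hs4 s i + dl (s 1) i * hs4 s i - dl (s 2) i * hs4 s i -
      dl (s 3) i * hs4 s i := by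
    intro i; unfold hs4; ring
  simp_rw [e]
  rw [Finset.sum_sub_distrib, Finset.sum_sub_distrib, Finset.sum_add_distrib, sum_dl, sum_dl,
    sum_dl, sum_dl]
  unfold hs4
  simp only [dl_self, dl_ne h01, dl_ne h02, dl_ne h03, dl_ne h12, dl_ne h13, dl_ne h23,
    dl_ne h01.symm, dl_ne h02.symm, dl_ne h03.symm, dl_ne h12.symm, dl_ne h13.symm,
    dl_ne h23.symm]
  norm_num

end hs4

end Pool.Agent.H16R3.Curv
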