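import Pool.Agent.H16R3.Curv.Cone

set_option autoImplicit false

open Set Matrix Finset Filter Topology

namespace Pool.Agent.H16R3.Curv

variable {n : ℕ}

/-- the pairing of 4-index arrays -/
def ip (A B : Tensor4 n) : ℝ := ∑ i, ∑ j, ∑ k, ∑ l, A i j k l * B i j k l

lemma sum4 {ι : Type*} [Fintype ι] (f : ι → ι → ι → ι → ℝ) :
    ∑ a, ∑ b, ∑ c, ∑ d, f a b c d = ∑ x : ι × ι × ι × ι, f x.1 x.2.1 x.2.2.1 x.2.2.2 := by
  simp [Fintype.sum_prod_type]

lemma act_mem (g : Matrix (Fin n) (Fin n) ℝ) {R : Tensor4 n} (hR : R ∈ CurvOp n) :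
    act g R ∈ CurvOp n := by
  obtain ⟨h1, h2, h3, h4⟩ := hR
  refine ⟨?_, ?_, ?_, ?_⟩ <;> intro i j k l <;> simp only [act, sum4]
  · rw [← Finset.sum_neg_distrib]
    refine Fintype.sum_equiv ⟨fun x => (x.2.1, x.1, x.2.2.1, x.2.2.2),
      fun x => (x.2.1, x.1, x.2.2.1, x.2.2.2), fun x => rfl, fun x => rfl⟩ _ _ fun x => ?_
    simp only [Equiv.coe_fn_mk]
    rw [h1 x.1 x.2.1]; ring
  · rw [← Finset.sum_neg_distrib]
    refine Fintype.sum_equiv ⟨fun x => (x.1, x.2.1, x.2.2.2, x.2.2.1),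
      fun x => (x.1, x.2.1, x.2.2.2, x.2.2.1), fun x => rfl, fun x => rfl⟩ _ _ fun x => ?_
    simp only [Equiv.coe_fn_mk]
    rw [h2 x.1 x.2.1]; ring
  · refine Fintype.sum_equiv ⟨fun x => (x.2.2.1, x.2.2.2, x.1, x.2.1),
      fun x => (x.2.2.1, x.2.2.2, x.1, x.2.1), fun x => rfl, fun x => rfl⟩ _ _ fun x => ?_
    simp only [Equiv.coe_fn_mk]
    rw [h3 x.1 x.2.1]; ring
  · have e1 : ∑ x : Fin n × Fin n × Fin n × Fin n, g x.1 j * g x.2.1 k * g x.2.2.1 i * g x.2.2.2 l *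
        R x.1 x.2.1 x.2.2.1 x.2.2.2 = ∑ x : Fin n × Fin n × Fin n × Fin n,
        g x.1 i * g x.2.1 j * g x.2.2.1 k * g x.2.2.2 l * R x.2.1 x.2.2.1 x.1 x.2.2.2 := by
      refine Fintype.sum_equiv ⟨fun x => (x.2.2.1, x.1, x.2.1, x.2.2.2),
        fun x => (x.2.1, x.2.2.1, x.1, x.2.2.2), fun x => rfl, fun x => rfl⟩ _ _ fun x => ?_
      simp only [Equiv.coe_fn_mk]
      ring
    have e2 : ∑ x : Fin n × Fin n × Fin n × Fin n, g x.1 k * g x.2.1 i * g x.2.2.1 j * g x.2.2.2 l *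
        R x.1 x.2.1 x.2.2.1 x.2.2.2 = ∑ x : Fin n × Fin n × Fin n × Fin n,
        g x.1 i * g x.2.1 j * g x.2.2.1 k * g x.2.2.2 l * R x.2.2.1 x.1 x.2.1 x.2.2.2 := by
      refine Fintype.sum_equiv ⟨fun x => (x.2.1, x.2.2.1, x.1, x.2.2.2),
        fun x => (x.2.2.1, x.1, x.2.1, x.2.2.2), fun x => rfl, fun x => rfl⟩ _ _ fun x => ?_
      simp only [Equiv.coe_fn_mk]
      ring
    rw [e1, e2, ← Finset.sum_add_distrib, ← Finset.sum_add_distrib]
    refine Finset.sum_eq_zero fun x _ => ?_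
    linear_combination (g x.1 i * g x.2.1 j * g x.2.2.1 k * g x.2.2.2 l) *
      h4 x.1 x.2.1 x.2.2.1 x.2.2.2

lemma ip_act (g : Matrix (Fin n) (Fin n) ℝ) (A B : Tensor4 n) :
    ip A (act g B) = ip (act gᵀ A) B := by
  simp only [ip, act, sum4, Finset.mul_sum, Finset.sum_mul, Matrix.transpose_apply]
  rw [Finset.sum_comm]
  refine Finset.sum_congr rfl fun x _ => Finset.sum_congr rfl fun y _ => by ring

lemma act_one (R : Tensor4 n) : act 1 R = R := by
  funext i j k l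
  simp only [act, Matrix.one_apply]
  have : ∀ a b c d : Fin n, (if a = i then (1 : ℝ) else 0) * (if b = j then 1 else 0) *
      (if c = k then 1 else 0) * (if d = l then 1 else 0) * R a b c d =
      dl i a * (dl j b * (dl k c * (dl l d * R a b c d))) := by
    intro a b c d
    simp only [dl, eq_comm]
    ring
  simp_rw [this, ← Finset.mul_sum, sum_dl]

lemma ip_add_right (A B D : Tensor4 n) : ip A (B + D) = ip A B + ip A D := by
  simp only [ip, sum4, Pi.add_apply, mul_add, Finset.sum_add_distrib]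

lemma ip_smul_right (c : ℝ) (A B : Tensor4 n) : ip A (c • B) = c * ip A B := by
  simp only [ip, sum4, Pi.smul_apply, smul_eq_mul, Finset.mul_sum]
  exact Finset.sum_congr rfl fun x _ => by ring

/-- pairing of `Φ` with `α ⊗ β` -/
def bil (Φ : Tensor4 n) (α β : Matrix (Fin n) (Fin n) ℝ) : ℝ :=
  ∑ i, ∑ j, α i j * ∑ k, ∑ l, β k l * Φ i j k l

lemma bil_wedge {Φ : Tensor4 n} (hΦ : Φ ∈ CurvOp n) (a b c d : Fin n) :
    bil Φ (wedge a b) (wedge c d) = 4 * Φ a b c d := by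
  obtain ⟨h1, h2, -, -⟩ := hΦ
  unfold bil
  have : ∀ i j, ∑ k, ∑ l, wedge c d k l * Φ i j k l = 2 * Φ i j c d := by
    intro i j
    rw [sum_wedge' (fun k l => Φ i j k l) c d, h2 i j d c]; ring
  simp_rw [this]
  rw [sum_wedge' (fun i j => 2 * Φ i j c d) a b, h1 b a c d]; ring

lemma bil_add_left (Φ : Tensor4 n) (α α' β : Matrix (Fin n) (Fin n) ℝ) :
    bil Φ (α + α') β = bil Φ α β + bil Φ α' β := by
  simp only [bil, Matrix.add_apply, add_mul, Finset.sum_add_distrib]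

lemma bil_add_right (Φ : Tensor4 n) (α β β' : Matrix (Fin n) (Fin n) ℝ) :
    bil Φ α (β + β') = bil Φ α β + bil Φ α β' := by
  simp only [bil, Matrix.add_apply, add_mul, Finset.sum_add_distrib, mul_add]

lemma ip_tsq (Φ : Tensor4 n) (α : Matrix (Fin n) (Fin n) ℝ) : ip Φ (tsq α) = bil Φ α α := by
  simp only [ip, tsq, bil, Finset.mul_sum]
  refine Finset.sum_congr rfl fun i _ => Finset.sum_congr rfl fun j _ =>
    Finset.sum_congr rfl fun k _ => Finset.sum_congr rfl fun l _ => by ring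

lemma ip_W {Φ : Tensor4 n} (hΦ : Φ ∈ CurvOp n) (s : Fin 4 → Fin n) :
    ip Φ (G s 0 1) = 4 * (2 * (Φ (s 0) (s 1) (s 0) (s 1) + Φ (s 2) (s 3) (s 2) (s 3)) -
      (Φ (s 0) (s 2) (s 0) (s 2) + Φ (s 1) (s 3) (s 1) (s 3)) -
      (Φ (s 0) (s 3) (s 0) (s 3) + Φ (s 1) (s 2) (s 1) (s 2)) + 6 * Φ (s 0) (s 1) (s 2) (s 3)) := by
  rw [W_eq, ip_add_right, ip_add_right, ip_smul_right, ip_smul_right, ip_smul_right, ip_tsq,
    ip_tsq, ip_tsq]
  simp only [bas, Matrix.cons_val, Matrix.cons_val_zero, Matrix.cons_val_one, bil_add_left,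
    bil_add_right, bil_wedge hΦ]
  obtain ⟨h1, h2, h3, h4⟩ := hΦ
  have b := h4 (s 0) (s 1) (s 2) (s 3)
  have c1 : Φ (s 3) (s 1) (s 3) (s 1) = Φ (s 1) (s 3) (s 1) (s 3) := by
    rw [h1 (s 3) (s 1), h2 (s 1) (s 3)]; ring
  have c2 : Φ (s 0) (s 2) (s 3) (s 1) = Φ (s 2) (s 0) (s 1) (s 3) := by
    rw [h1 (s 0) (s 2), h2 (s 2) (s 0)]; ring
  have c3 : Φ (s 3) (s 1) (s 0) (s 2) = Φ (s 2) (s 0) (s 1) (s 3) := by
    rw [h3 (s 3) (s 1), c2]
  have c4 : Φ (s 1) (s 2) (s 0) (s 3) = Φ (s 1) (s 2) (s 0) (s 3) := rfl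
  have c5 : Φ (s 0) (s 3) (s 1) (s 2) = Φ (s 1) (s 2) (s 0) (s 3) := h3 _ _ _ _
  have c6 : Φ (s 2) (s 3) (s 0) (s 1) = Φ (s 0) (s 1) (s 2) (s 3) := h3 _ _ _ _
  rw [c1, c2, c3, c5, c6]
  linear_combination (-8) * b

lemma ip_diagT {Φ : Tensor4 n} (hΦ : Φ ∈ CurvOp n) (f : Fin n → Fin n → ℝ) :
    ip Φ (diagT f) = 2 * ∑ i, ∑ j, f i j * Φ i j i j := by
  obtain ⟨h1, h2, -, -⟩ := hΦ
  have e : ∀ i j, ∑ k, ∑ l, Φ i j k l * diagT f i j k l = 2 * (f i j * Φ i j i j) := by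
    intro i j
    have : ∀ k l, Φ i j k l * diagT f i j k l =
        dl i k * (dl j l * (f i j * Φ i j k l)) - dl j k * (dl i l * (f i j * Φ i j k l)) := by
      intro k l; simp only [diagT]; ring
    simp_rw [this, Finset.sum_sub_distrib, ← Finset.mul_sum, sum_dl]
    rw [h2 i j j i]; ring
  simp only [ip]
  simp_rw [e, ← Finset.mul_sum]

lemma diag_zero {Φ : Tensor4 n} (hΦ : Φ ∈ CurvOp n) (i k l : Fin n) : Φ i i k l = 0 := by
  have := hΦ.1 i i k l; linarith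

lemma ip_V {Φ : Tensor4 n} (hΦ : Φ ∈ CurvOp n) (h : Fin n → ℝ) :
    ip Φ (Vh h) = 2 * ∑ i, h i * ∑ j, Φ i j i j := by
  have hs : ∀ i j, Φ i j i j = Φ j i j i := by
    intro i j; rw [hΦ.1 i j, hΦ.2.1 j i]; ring
  rw [Vh, ip_diagT hΦ]
  congr 1
  have e : ∀ i j, (1 - dl i j) * ((h i + h j) / 2) * Φ i j i j =
      (1 / 2) * (h i * Φ i j i j) + (1 / 2) * (h j * Φ i j i j) := by
    intro i j
    by_cases hij : i = j
    · subst hij; rw [diag_zero hΦ]; ring
    · rw [dl_ne hij]; ring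
  simp_rw [e, Finset.sum_add_distrib, ← Finset.mul_sum]
  have e2 : ∑ i, ∑ j, h j * Φ i j i j = ∑ i, h i * ∑ j, Φ i j i j := by
    rw [Finset.sum_comm]
    refine Finset.sum_congr rfl fun i _ => ?_
    rw [Finset.mul_sum]
    exact Finset.sum_congr rfl fun j _ => by rw [hs i j]
  rw [e2]
  ring

/-- the reflection `1 - (2/5) v vᵀ` with `v = e_j + 2 e_k` -/
noncomputable def refl5 (j k : Fin n) : Matrix (Fin n) (Fin n) ℝ :=
  Matrix.of fun a b => dl a b - (2 / 5) * (dl a j + 2 * dl a k) * (dl b j + 2 * dl b k)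

lemma refl5_transpose (j k : Fin n) : (refl5 j k)ᵀ = refl5 j k := by
  ext a b; simp only [refl5, Matrix.transpose_apply, Matrix.of_apply]; rw [dl_comm b a]; ring

lemma refl5_mul (j k : Fin n) (hjk : j ≠ k) : refl5 j k * refl5 j k = 1 := by
  ext a b
  rw [Matrix.mul_apply]
  simp only [refl5, Matrix.of_apply]
  have e : ∀ x, (dl a x - (2 / 5) * (dl a j + 2 * dl a k) * (dl x j + 2 * dl x k)) *
      (dl x b - (2 / 5) * (dl x j + 2 * dl x k) * (dl b j + 2 * dl b k)) =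
      dl a x * (dl x b - (2 / 5) * (dl x j + 2 * dl x k) * (dl b j + 2 * dl b k)) -
      dl j x * ((2 / 5) * (dl a j + 2 * dl a k) *
        (dl x b - (2 / 5) * (dl x j + 2 * dl x k) * (dl b j + 2 * dl b k))) -
      dl k x * (2 * (2 / 5) * (dl a j + 2 * dl a k) *
        (dl x b - (2 / 5) * (dl x j + 2 * dl x k) * (dl b j + 2 * dl b k))) := by
    intro x
    rw [dl_comm j x, dl_comm k x]; ring
  simp_rw [e, Finset.sum_sub_distrib, sum_dl]
  rw [dl_self, dl_self, dl_ne hjk, dl_ne hjk.symm, Matrix.one_apply, dl_comm j b, dl_comm k b]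
  have : (if a = b then (1 : ℝ) else 0) = dl a b := rfl
  rw [this]
  ring

lemma refl5_mem (j k : Fin n) (hjk : j ≠ k) : refl5 j k ∈ Matrix.orthogonalGroup (Fin n) ℝ := by
  rw [Matrix.mem_orthogonalGroup_iff, refl5_transpose, refl5_mul j k hjk]

/-- first consequences of orthogonality to all `W` and `V` -/
def Perp (Ψ : Tensor4 n) : Prop :=
  Ψ ∈ CurvOp n ∧ ∀ s : Fin 4 → Fin n, Function.Injective s →
    ip Ψ (G s 0 1) = 0 ∧ ip Ψ (Vh (hs4 s)) = 0

lemma inj4 {a b c d : Fin n} (hab : a ≠ b) (hac : a ≠ c) (had : a ≠ d) (hbc : b ≠ c) (hbd : b ≠ d)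
    (hcd : c ≠ d) : Function.Injective (![a, b, c, d] : Fin 4 → Fin n) := by
  intro x y hxy
  fin_cases x <;> fin_cases y <;> simp at hxy ⊢ <;>
    first
      | exact hab hxy | exact hac hxy | exact had hxy | exact hbc hxy | exact hbd hxy
      | exact hcd hxy | exact hab hxy.symm | exact hac hxy.symm | exact had hxy.symm
      | exact hbc hxy.symm | exact hbd hxy.symm | exact hcd hxy.symm


lemma sec_symm {Ψ : Tensor4 n} (h : Ψ ∈ CurvOp n) (i j : Fin n) : Ψ i j i j = Ψ j i j i := by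
  rw [h.1 i j, h.2.1 j i]; ring

lemma perp_rel {Ψ : Tensor4 n} (hΨ : Perp Ψ) {a b c d : Fin n} (hab : a ≠ b) (hac : a ≠ c)
    (had : a ≠ d) (hbc : b ≠ c) (hbd : b ≠ d) (hcd : c ≠ d) :
    Ψ a b c d = 0 ∧ Ψ a b a b + Ψ c d c d = Ψ a c a c + Ψ b d b d := by
  obtain ⟨hm, hP⟩ := hΨ
  have e1 := (hP _ (inj4 hab hac had hbc hbd hcd)).1
  have e2 := (hP _ (inj4 hab.symm hbc hbd hac had hcd)).1
  have e3 := (hP _ (inj4 hac had hab hcd hbc.symm hbd.symm)).1
  have e4 := (hP _ (inj4 hac.symm hcd hbc.symm had hab hbd.symm)).1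
  rw [ip_W hm] at e1 e2 e3 e4
  simp only [Matrix.cons_val, Matrix.cons_val_zero, Matrix.cons_val_one] at e1 e2 e3 e4
  have s1 := sec_symm hm a b
  have s2 := sec_symm hm a c
  have s3 := sec_symm hm a d
  have s4 := sec_symm hm b c
  have s5 := sec_symm hm b d
  have s6 := sec_symm hm c d
  have t1 := hm.1 b a c d
  have t2 := hm.1 c a d b
  have hz : Ψ a b c d = 0 := by linarith
  have hz' : Ψ a c d b = 0 := by linarith
  refine ⟨hz, ?_⟩
  rw [hz] at e1
  rw [hz'] at e3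
  linarith

lemma perp_ricci {Ψ : Tensor4 n} (hΨ : Perp Ψ) (hn : 4 ≤ n) (a b : Fin n) :
    ∑ j, Ψ a j a j = ∑ j, Ψ b j b j := by
  obtain ⟨hm, hP⟩ := hΨ
  by_cases hab : a = b
  · rw [hab]
  -- two further indices
  have hcard : 2 ≤ (({a, b} : Finset (Fin n))ᶜ).card := by
    rw [Finset.card_compl, Fintype.card_fin]
    have := Finset.card_le_two (a := a) (b := b)
    omega
  obtain ⟨c, hc, d, hd, hcd⟩ := Finset.one_lt_card.1 (show 1 < (({a, b} : Finset (Fin n))ᶜ).card by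
    omega)
  simp only [Finset.mem_compl, Finset.mem_insert, Finset.mem_singleton, not_or] at hc hd
  have key : ∀ s : Fin 4 → Fin n, Function.Injective s →
      (∑ j, Ψ (s 0) j (s 0) j) + (∑ j, Ψ (s 1) j (s 1) j) - (∑ j, Ψ (s 2) j (s 2) j) -
        (∑ j, Ψ (s 3) j (s 3) j) = 0 := by
    intro s hs
    have h := (hP s hs).2
    rw [ip_V hm] at h
    have e : ∀ i, hs4 s i * ∑ j, Ψ i j i j = dl (s 0) i * (∑ j, Ψ i j i j) +
        dl (s 1) i * (∑ j, Ψ i j i j) - dl (s 2) i * (∑ j, Ψ i j i j) -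
        dl (s 3) i * (∑ j, Ψ i j i j) := by
      intro i; unfold hs4; ring
    simp_rw [e, Finset.sum_sub_distrib, Finset.sum_add_distrib] at h
    rw [sum_dl (s 0) (fun i => ∑ j, Ψ i j i j), sum_dl (s 1) (fun i => ∑ j, Ψ i j i j),
      sum_dl (s 2) (fun i => ∑ j, Ψ i j i j), sum_dl (s 3) (fun i => ∑ j, Ψ i j i j)] at h
    linarith
  have k1 := key _ (inj4 (Ne.symm hc.1) hab (Ne.symm hd.1) hc.2 hcd (Ne.symm hd.2))
  have k2 := key _ (inj4 (Ne.symm hd.1) hab (Ne.symm hc.1) hd.2 hcd.symm (Ne.symm hc.2))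
  simp only [Matrix.cons_val, Matrix.cons_val_zero, Matrix.cons_val_one] at k1 k2
  linarith

lemma perp_step {Ψ : Tensor4 n} (hΨ : Perp Ψ) (hn : 4 ≤ n) (i j k : Fin n) (hij : i ≠ j)
    (hik : i ≠ k) : Ψ i j i j = Ψ i k i k := by
  by_cases hjk : j = k
  · rw [hjk]
  have hm := hΨ.1
  have h0 := perp_ricci hΨ hn j k
  have h1 : ∑ l, (Ψ j l j l - Ψ k l k l) = 0 := by
    rw [Finset.sum_sub_distrib, h0, sub_self]
  have h2 : ∀ l, Ψ j l j l - Ψ k l k l = (Ψ i j i j - Ψ i k i k) -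
      dl j l * (Ψ i j i j - Ψ i k i k + Ψ k j k j) - dl k l * (Ψ i j i j - Ψ i k i k - Ψ j k j k) := by
    intro l
    by_cases hjl : j = l
    · subst hjl
      rw [dl_self, dl_ne (Ne.symm hjk), diag_zero hm]; ring
    · by_cases hkl : k = l
      · subst hkl
        rw [dl_self, dl_ne hjk, diag_zero hm]; ring
      · rw [dl_ne hjl, dl_ne hkl]
        by_cases hil : i = l
        · subst hil
          rw [sec_symm hm j i, sec_symm hm k i]; ring
        · have := (perp_rel hΨ hij hik hil hjk hjl hkl).2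
          rw [sec_symm hm j l, sec_symm hm k l]
          have t1 := sec_symm hm j l
          have t2 := sec_symm hm k l
          linarith
  simp_rw [h2] at h1
  rw [Finset.sum_sub_distrib, Finset.sum_sub_distrib, sum_dl, sum_dl] at h1
  simp only [Finset.sum_const, Finset.card_univ, Fintype.card_fin, nsmul_eq_mul] at h1
  have t := sec_symm hm j k
  have hfac : ((n : ℝ) - 2) * (Ψ i j i j - Ψ i k i k) = 0 := by linarith
  have hn' : (n : ℝ) - 2 ≠ 0 := by
    have : (4 : ℝ) ≤ n := by exact_mod_cast hn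
    linarith
  have := (mul_eq_zero.1 hfac).resolve_left hn'
  linarith

lemma perp_const {Ψ : Tensor4 n} (hΨ : Perp Ψ) (hn : 4 ≤ n) (i j a b : Fin n) (hij : i ≠ j)
    (hab : a ≠ b) : Ψ i j i j = Ψ a b a b := by
  have hm := hΨ.1
  by_cases hib : i = b
  · subst hib
    rw [perp_step hΨ hn i j a hij (Ne.symm hab), sec_symm hm]
  · rw [perp_step hΨ hn i j b hij hib, sec_symm hm i b,
      perp_step hΨ hn b i a (Ne.symm hib) (Ne.symm hab), sec_symm hm b a]

lemma act_refl5 {Φ : Tensor4 n} (hΦ : Φ ∈ CurvOp n) (i j k : Fin n) (hij : i ≠ j) (hik : i ≠ k)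
    (hjk : j ≠ k) : act (refl5 j k) Φ i j i j =
      (9 * Φ i j i j + 16 * Φ i k i k - 24 * Φ i j i k) / 25 := by
  have hs : Φ i k i j = Φ i j i k := hΦ.2.2.1 _ _ _ _
  simp only [act, refl5, Matrix.of_apply]
  have e : ∀ a b c d : Fin n, (dl a i - (2 / 5) * (dl a j + 2 * dl a k) * (dl i j + 2 * dl i k)) *
      (dl b j - (2 / 5) * (dl b j + 2 * dl b k) * (dl j j + 2 * dl j k)) *
      (dl c i - (2 / 5) * (dl c j + 2 * dl c k) * (dl i j + 2 * dl i k)) *
      (dl d j - (2 / 5) * (dl d j + 2 * dl d k) * (dl j j + 2 * dl j k)) * Φ a b c d =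
      dl i a * ((3 / 5 * dl j b - 4 / 5 * dl k b) * (dl i c * ((3 / 5 * dl j d - 4 / 5 * dl k d) *
        Φ a b c d))) := by
    intro a b c d
    rw [dl_ne hij, dl_ne hik, dl_self, dl_ne hjk, dl_comm a i, dl_comm b j, dl_comm b k,
      dl_comm c i, dl_comm d j, dl_comm d k]
    ring
  simp_rw [e, ← Finset.mul_sum, sum_dl]
  have e2 : ∀ b, ∑ d, (3 / 5 * dl j d - 4 / 5 * dl k d) * Φ i b i d =
      3 / 5 * Φ i b i j - 4 / 5 * Φ i b i k := by
    intro b
    have : ∀ d, (3 / 5 * dl j d - 4 / 5 * dl k d) * Φ i b i d =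
        dl j d * (3 / 5 * Φ i b i d) - dl k d * (4 / 5 * Φ i b i d) := by intro d; ring
    simp_rw [this, Finset.sum_sub_distrib, sum_dl]
  simp_rw [e2]
  have e3 : ∀ b, (3 / 5 * dl j b - 4 / 5 * dl k b) * (3 / 5 * Φ i b i j - 4 / 5 * Φ i b i k) =
      dl j b * (3 / 5 * (3 / 5 * Φ i b i j - 4 / 5 * Φ i b i k)) -
      dl k b * (4 / 5 * (3 / 5 * Φ i b i j - 4 / 5 * Φ i b i k)) := by intro b; ring
  simp_rw [e3, Finset.sum_sub_distrib, sum_dl]
  rw [hs]; ring

/-- an operator orthogonal to all rotated copies of `W` and `V` is a multiple of the identity -/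
lemma perp_rigid {Φ : Tensor4 n} (hn : 4 ≤ n) (hΦ : Φ ∈ CurvOp n)
    (hP : ∀ g ∈ Matrix.orthogonalGroup (Fin n) ℝ, ∀ s : Fin 4 → Fin n, Function.Injective s →
      ip Φ (act g (G s 0 1)) = 0 ∧ ip Φ (act g (Vh (hs4 s))) = 0) :
    ∃ κ : ℝ, Φ = κ • idOp n := by
  have h1 : Perp Φ := by
    refine ⟨hΦ, fun s hs => ?_⟩
    have := hP 1 (one_mem _) s hs
    rwa [act_one, act_one] at this
  have h2 : ∀ j k : Fin n, j ≠ k → Perp (act (refl5 j k) Φ) := by
    intro j k hjk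
    refine ⟨act_mem _ hΦ, fun s hs => ?_⟩
    have := hP _ (refl5_mem j k hjk) s hs
    rwa [ip_act, ip_act, refl5_transpose] at this
  let a : Fin n := ⟨0, by omega⟩
  let b : Fin n := ⟨1, by omega⟩
  have hab : a ≠ b := by simp [a, b]
  set κ := Φ a b a b with hκ
  have hsec : ∀ i j, i ≠ j → Φ i j i j = κ := fun i j hij => perp_const h1 hn i j a b hij hab
  -- the mixed components vanish
  have hmix : ∀ i j k, i ≠ j → i ≠ k → j ≠ k → Φ i j i k = 0 := by
    intro i j k hij hik hjk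
    have hP' := h2 j k hjk
    -- a fourth index
    have hcard : 0 < (({i, j, k} : Finset (Fin n))ᶜ).card := by
      rw [Finset.card_compl, Fintype.card_fin]
      have := Finset.card_le_three (a := i) (b := j) (c := k)
      omega
    obtain ⟨l, hl⟩ := Finset.card_pos.1 hcard
    simp only [Finset.mem_compl, Finset.mem_insert, Finset.mem_singleton, not_or] at hl
    obtain ⟨hli, hlj, hlk⟩ := hl
    have e1 := perp_const hP' hn i j i l hij (Ne.symm hli)
    rw [act_refl5 hΦ i j k hij hik hjk] at e1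
    have e2 : act (refl5 j k) Φ i l i l = Φ i l i l := by
      simp only [act, refl5, Matrix.of_apply]
      have e : ∀ a b c d : Fin n, (dl a i - (2 / 5) * (dl a j + 2 * dl a k) * (dl i j + 2 * dl i k)) *
          (dl b l - (2 / 5) * (dl b j + 2 * dl b k) * (dl l j + 2 * dl l k)) *
          (dl c i - (2 / 5) * (dl c j + 2 * dl c k) * (dl i j + 2 * dl i k)) *
          (dl d l - (2 / 5) * (dl d j + 2 * dl d k) * (dl l j + 2 * dl l k)) * Φ a b c d =
          dl i a * (dl l b * (dl i c * (dl l d * Φ a b c d))) := by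
        intro a b c d
        rw [dl_ne hij, dl_ne hik, dl_ne hlj, dl_ne hlk, dl_comm a i, dl_comm b l,
          dl_comm c i, dl_comm d l]
        ring
      simp_rw [e, ← Finset.mul_sum, sum_dl]
    rw [e2, hsec i j hij, hsec i k hik, hsec i l (Ne.symm hli)] at e1
    linarith
  refine ⟨κ, ?_⟩
  obtain ⟨s1, s2, s3, s4⟩ := hΦ
  have hΦ : Φ ∈ CurvOp n := ⟨s1, s2, s3, s4⟩
  funext i j k l
  have hid : (κ • idOp n) i j k l = κ * (dl i k * dl j l - dl i l * dl j k) := by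
    simp only [Pi.smul_apply, smul_eq_mul, idOp, dl, ite_and]
    split_ifs <;> simp
  rw [hid]
  by_cases hij : i = j
  · subst hij; rw [diag_zero hΦ]; ring
  by_cases hkl : k = l
  · subst hkl
    rw [s3, diag_zero hΦ]; ring
  by_cases hik : i = k
  · subst hik
    rw [dl_self]
    by_cases hjl : j = l
    · subst hjl; rw [dl_self, dl_ne hij, hsec i j hij]; ring
    · rw [dl_ne hjl, dl_ne hkl, hmix i j l hij hkl hjl]; ring
  · rw [dl_ne hik]
    by_cases hil : i = l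
    · subst hil
      rw [dl_self, s2]
      by_cases hjk : j = k
      · subst hjk; rw [dl_self, hsec i j hij]; ring
      · rw [dl_ne hjk, hmix i j k hij hik hjk]; ring
    · rw [dl_ne hil]
      by_cases hjk : j = k
      · subst hjk
        rw [s1, hmix j i l (Ne.symm hij) hkl hil]; ring
      · by_cases hjl : j = l
        · subst hjl
          rw [s1, s2, hmix j i k (Ne.symm hij) (Ne.symm hkl) hik]; ring
        · rw [(perp_rel h1 hij hik hil hjk hjl hkl).1]; ring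

end Pool.Agent.H16R3.Curv
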