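import Pool.Agent.H16R3.Curv.Flow

set_option autoImplicit false

open Set Matrix Finset Filter Topology

namespace Pool.Agent.H16R3.Curv

variable {n : ℕ}

lemma diagT_congr (f g : Fin n → Fin n → ℝ) (h : ∀ i j, i ≠ j → f i j = g i j) :
    diagT f = diagT g := by
  funext i j k l
  simp only [diagT]
  by_cases hij : i = j
  · subst hij; rw [mul_comm (dl i k), sub_self, mul_zero, mul_zero]
  · rw [h i j hij]

lemma diagT_add (f g : Fin n → Fin n → ℝ) :
    diagT (fun i j => f i j + g i j) = diagT f + diagT g := by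
  funext i j k l; simp only [diagT, Pi.add_apply]; ring

lemma diagT_smul (c : ℝ) (f : Fin n → Fin n → ℝ) :
    diagT (fun i j => c * f i j) = c • diagT f := by
  funext i j k l; simp only [diagT, Pi.smul_apply, smul_eq_mul]; ring

lemma idOp_eq : idOp n = diagT (fun i j => 1 - dl i j) := by
  have : idOp n = diagT (fun _ _ => 1) := by
    funext i j k l
    simp only [idOp, diagT, dl, ite_and]
    split_ifs <;> simp
  rw [this]
  exact diagT_congr _ _ fun i j hij => by rw [dl_ne hij, sub_zero]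

lemma idOp_mem : idOp n ∈ CurvOp n := by
  rw [idOp_eq]; exact diagT_mem _ fun i j => by rw [dl_comm]

/-- sanity check of the normalisation of `Q`: `Q(I) = (n - 1) I` -/
lemma Q_idOp : Q (idOp n) = ((n : ℝ) - 1) • idOp n := by
  rw [idOp_eq, Q_diagT _ (fun i j => by rw [dl_comm]) (fun i => by rw [dl_self, sub_self]),
    ← diagT_smul]
  refine diagT_congr _ _ fun i j hij => ?_
  have : ∑ p, (1 - dl i p) * (1 - dl j p) = (n : ℝ) - 2 := by
    have e : ∀ p, (1 - dl i p) * (1 - dl j p) = 1 - dl i p * 1 - dl j p * 1 + dl i p * dl j p := by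
      intro p; ring
    simp_rw [e]
    rw [Finset.sum_add_distrib, Finset.sum_sub_distrib, Finset.sum_sub_distrib, sum_dl, sum_dl,
      sum_dl i (fun p => dl j p), dl_ne (Ne.symm hij)]
    simp; ring
  rw [this, dl_ne hij]; ring

lemma tsq_wedge (a b : Fin n) (hab : a ≠ b) :
    tsq (wedge a b) = diagT (fun i j => dl a i * dl b j + dl b i * dl a j) := by
  funext i j k l
  simp only [tsq, wedge_dl, diagT]
  by_cases h1 : a = i
  · subst h1
    by_cases h2 : b = j
    · subst h2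
      rw [dl_self, dl_self, dl_ne hab, dl_ne hab.symm]
      ring
    · rw [dl_self, dl_ne h2, dl_ne hab.symm]
      ring
  · by_cases h2 : b = i
    · subst h2
      by_cases h3 : a = j
      · subst h3
        rw [dl_self, dl_self, dl_ne hab, dl_ne hab.symm]
        ring
      · rw [dl_self, dl_ne hab, dl_ne h3]
        ring
    · rw [dl_ne h1, dl_ne h2]; ring

lemma W_eq (s : Fin 4 → Fin n) :
    G s 0 1 = (2 : ℝ) • tsq (bas s 0) + (-1 : ℝ) • tsq (bas s 1) + (-1 : ℝ) • tsq (bas s 2) := by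
  funext i j k l
  rw [G_apply]
  simp only [Pi.add_apply, Pi.smul_apply, smul_eq_mul, tsq]
  ring

/-- the three cyclic versions of `W` sum to zero -/
lemma W_cyc (s : Fin 4 → Fin n) :
    G s 0 1 + G ![s 0, s 2, s 3, s 1] 0 1 + G ![s 0, s 3, s 1, s 2] 0 1 = 0 := by
  funext i j k l
  simp only [W_eq, bas, tsq, Pi.add_apply, Pi.smul_apply, smul_eq_mul, Matrix.cons_val,
    Matrix.cons_val_zero, Matrix.cons_val_one, Matrix.add_apply, Matrix.sub_apply, Pi.zero_apply]
  ring

lemma inj_of_ne {s : Fin 4 → Fin n} (hs : Function.Injective s) (a b c d : Fin 4)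
    (hab : a ≠ b) (hac : a ≠ c) (had : a ≠ d) (hbc : b ≠ c) (hbd : b ≠ d) (hcd : c ≠ d) :
    Function.Injective (![s a, s b, s c, s d] : Fin 4 → Fin n) := by
  have ne := fun {i j : Fin 4} (h : i ≠ j) => hs.ne h
  intro x y hxy
  fin_cases x <;> fin_cases y <;> simp at hxy ⊢ <;>
    first
      | exact hab (hs hxy) | exact hac (hs hxy) | exact had (hs hxy)
      | exact hbc (hs hxy) | exact hbd (hs hxy) | exact hcd (hs hxy)
      | exact hab (hs hxy.symm) | exact hac (hs hxy.symm) | exact had (hs hxy.symm)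
      | exact hbc (hs hxy.symm) | exact hbd (hs hxy.symm) | exact hcd (hs hxy.symm)

/-- the sign vector `(1, 1, -1, -1)` on the indices `s 0, s 1, s 2, s 3` -/
noncomputable def hs4 (s : Fin 4 → Fin n) (i : Fin n) : ℝ :=
  dl (s 0) i + dl (s 1) i - dl (s 2) i - dl (s 3) i

/-- conformally flat operator with Ricci part proportional to `h` -/
noncomputable def Vh (h : Fin n → ℝ) : Tensor4 n :=
  diagT (fun i j => (1 - dl i j) * ((h i + h j) / 2))

/-- diagonal Weyl operator attached to the sign vector `h` -/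
noncomputable def Wh (h : Fin n → ℝ) : Tensor4 n :=
  diagT (fun i j => (1 - dl i j) * ((h i ^ 2 * h j ^ 2 + 3 * (h i * h j)) / 2))

lemma W_avg (s : Fin 4 → Fin n) :
    (1 / 2 : ℝ) • (G s 0 1 + G ![s 1, s 0, s 2, s 3] 0 1) =
    (2 : ℝ) • (tsq (wedge (s 0) (s 1)) + tsq (wedge (s 2) (s 3))) -
    (tsq (wedge (s 0) (s 2)) + tsq (wedge (s 1) (s 3)) + tsq (wedge (s 0) (s 3)) +
      tsq (wedge (s 1) (s 2))) := by
  funext i j k l
  simp only [W_eq, bas, tsq, Pi.add_apply, Pi.smul_apply, smul_eq_mul, Matrix.cons_val,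
    Matrix.cons_val_zero, Matrix.cons_val_one, Matrix.add_apply, Matrix.sub_apply, Pi.sub_apply,
    wedge_dl]
  ring

lemma Wh_eq (s : Fin 4 → Fin n) (hs : Function.Injective s) :
    Wh (hs4 s) = (1 / 2 : ℝ) • (G s 0 1 + G ![s 1, s 0, s 2, s 3] 0 1) := by
  have ne : ∀ i j : Fin 4, i ≠ j → s i ≠ s j := fun i j h => hs.ne h
  have h01 := ne 0 1 (by decide)
  have h02 := ne 0 2 (by decide)
  have h03 := ne 0 3 (by decide)
  have h12 := ne 1 2 (by decide)
  have h13 := ne 1 3 (by decide)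
  have h23 := ne 2 3 (by decide)
  rw [W_avg, tsq_wedge _ _ h01, tsq_wedge _ _ h02, tsq_wedge _ _ h03, tsq_wedge _ _ h12,
    tsq_wedge _ _ h13, tsq_wedge _ _ h23]
  rw [sub_eq_add_neg, ← neg_one_smul ℝ (diagT _ + _ + _ + _)]
  rw [← diagT_add, ← diagT_smul, ← diagT_add, ← diagT_add, ← diagT_add, ← diagT_smul, ← diagT_add]
  refine diagT_congr _ _ fun i j hij => ?_
  simp only [hs4]
  rw [dl_ne hij]
  have key : ∀ i : Fin n, (i = s 0 ∨ i = s 1 ∨ i = s 2 ∨ i = s 3) ∨
      (s 0 ≠ i ∧ s 1 ≠ i ∧ s 2 ≠ i ∧ s 3 ≠ i) := by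
    intro i
    by_cases a0 : i = s 0
    · exact Or.inl (Or.inl a0)
    by_cases a1 : i = s 1
    · exact Or.inl (Or.inr (Or.inl a1))
    by_cases a2 : i = s 2
    · exact Or.inl (Or.inr (Or.inr (Or.inl a2)))
    by_cases a3 : i = s 3
    · exact Or.inl (Or.inr (Or.inr (Or.inr a3)))
    exact Or.inr ⟨Ne.symm a0, Ne.symm a1, Ne.symm a2, Ne.symm a3⟩
  rcases key i with (hi | hi | hi | hi) | ⟨hi0, hi1, hi2, hi3⟩ <;>
  rcases key j with (hj | hj | hj | hj) | ⟨hj0, hj1, hj2, hj3⟩ <;>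
  first
    | (exfalso; exact hij (hi.trans hj.symm))
    | (simp only [*, dl_self, dl_ne h01, dl_ne h02, dl_ne h03, dl_ne h12, dl_ne h13, dl_ne h23,
        dl_ne h01.symm, dl_ne h02.symm, dl_ne h03.symm, dl_ne h12.symm, dl_ne h13.symm,
        dl_ne h23.symm] <;> norm_num; done)
    | (simp only [hi, dl_self, dl_ne h01, dl_ne h02, dl_ne h03, dl_ne h12, dl_ne h13, dl_ne h23,
        dl_ne h01.symm, dl_ne h02.symm, dl_ne h03.symm, dl_ne h12.symm, dl_ne h13.symm,
        dl_ne h23.symm, dl_ne hj0, dl_ne hj1, dl_ne hj2, dl_ne hj3] <;> norm_num; done)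
    | (simp only [hj, dl_self, dl_ne h01, dl_ne h02, dl_ne h03, dl_ne h12, dl_ne h13, dl_ne h23,
        dl_ne h01.symm, dl_ne h02.symm, dl_ne h03.symm, dl_ne h12.symm, dl_ne h13.symm,
        dl_ne h23.symm, dl_ne hi0, dl_ne hi1, dl_ne hi2, dl_ne hi3] <;> norm_num; done)
    | (simp only [dl_ne hi0, dl_ne hi1, dl_ne hi2, dl_ne hi3, dl_ne hj0, dl_ne hj1, dl_ne hj2,
        dl_ne hj3] <;> norm_num; done)

end Pool.Agent.H16R3.Curv
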